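import Mathlib
import Pool.Agent.H447R2.MZ.Tup

/-!
# Multiple zeta values: exchanging a unit between two distant letters
-/

set_option autoImplicit false

namespace Pool.Agent.L5helper80.MZ

open Filter Topology
open Pool.Agent.H447R2.MZ (H H_nil H_cons H_cons_zero H_cons_succ H_nonneg H_mono Adm val tendsto_H H_le_val)

/-- the nested sum with the letters `p` on top of the function `f` -/
noncomputable def U : List ℕ → (ℕ → ℝ) → ℕ → ℝ
  | [], f, N => f N
  | (a :: p), f, N => ∑ n ∈ Finset.range N, (((n + 1 : ℕ) : ℝ) ^ a)⁻¹ * U p f n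

lemma U_nil (f : ℕ → ℝ) (N : ℕ) : U [] f N = f N := by rw [U]

lemma U_cons (a : ℕ) (p : List ℕ) (f : ℕ → ℝ) (N : ℕ) :
    U (a :: p) f N = ∑ n ∈ Finset.range N, (((n + 1 : ℕ) : ℝ) ^ a)⁻¹ * U p f n := by rw [U]

lemma U_cons_succ (a : ℕ) (p : List ℕ) (f : ℕ → ℝ) (N : ℕ) :
    U (a :: p) f (N + 1) = U (a :: p) f N + (((N + 1 : ℕ) : ℝ) ^ a)⁻¹ * U p f N := by
  rw [U_cons, Finset.sum_range_succ, ← U_cons]

lemma H_app (p s : List ℕ) : ∀ N, H (p ++ s) N = U p (H s) N := by
  induction p with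
  | nil => intro N; rw [List.nil_append, U_nil]
  | cons a p ih =>
    intro N
    rw [List.cons_append, H_cons, U_cons]
    exact Finset.sum_congr rfl fun n _ => by rw [ih]

lemma U_app (p p' : List ℕ) (f : ℕ → ℝ) : ∀ N, U (p ++ p') f N = U p (U p' f) N := by
  induction p with
  | nil => intro N; rw [List.nil_append, U_nil]
  | cons a p ih =>
    intro N
    rw [List.cons_append, U_cons, U_cons]
    exact Finset.sum_congr rfl fun n _ => by rw [ih]

lemma U_le {f g : ℕ → ℝ} (p : List ℕ) : ∀ a : ℕ, (∀ n, n + p.length ≤ a → f n ≤ g n) → U p f a ≤ U p g a := by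
  induction p with
  | nil => intro a h; rw [U_nil, U_nil]; exact h a (by simp)
  | cons c p ih =>
    intro a h
    rw [U_cons, U_cons]
    refine Finset.sum_le_sum fun n hn => ?_
    rw [Finset.mem_range] at hn
    refine mul_le_mul_of_nonneg_left (ih n fun n' hn' => h n' ?_) (by positivity)
    rw [List.length_cons]
    omega

lemma U_lin (p : List ℕ) (f g : ℕ → ℝ) (x y : ℝ) : ∀ N, U p (fun n => x * f n + y * g n) N = x * U p f N + y * U p g N := by
  induction p with
  | nil => intro N; simp only [U_nil]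
  | cons a p ih =>
    intro N
    rw [U_cons, U_cons, U_cons, Finset.mul_sum, Finset.mul_sum, ← Finset.sum_add_distrib]
    refine Finset.sum_congr rfl fun n _ => ?_
    rw [ih]
    ring

/-- the product `∏ (1 + x / n ^ 2)` -/
noncomputable def PP (x : ℝ) (N : ℕ) : ℝ := ∏ n ∈ Finset.range N, (1 + x / ((n + 1 : ℕ) : ℝ) ^ 2)

lemma PP_zero (x : ℝ) : PP x 0 = 1 := by simp [PP]

lemma PP_succ (x : ℝ) (N : ℕ) : PP x (N + 1) = PP x N + PP x N * (x / ((N + 1 : ℕ) : ℝ) ^ 2) := by
  rw [PP, Finset.prod_range_succ, ← PP]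
  ring

lemma PP_pos {x : ℝ} (hx : 0 ≤ x) (N : ℕ) : 0 < PP x N := by
  rw [PP]
  exact Finset.prod_pos fun n _ => by positivity

lemma PP_mono {x : ℝ} (hx : 0 ≤ x) : Monotone (PP x) := by
  refine monotone_nat_of_le_succ fun N => ?_
  rw [PP_succ]
  have := mul_nonneg (PP_pos hx N).le (by positivity : (0 : ℝ) ≤ x / ((N + 1 : ℕ) : ℝ) ^ 2)
  linarith

lemma one_le_PP {x : ℝ} (hx : 0 ≤ x) (N : ℕ) : 1 ≤ PP x N := by
  rw [← PP_zero x]
  exact PP_mono hx (Nat.zero_le N)

/-- the product beyond `M` -/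
lemma PP_tail {y : ℝ} (hy : 0 ≤ y) {M : ℕ} (hM : 1 ≤ M) {N : ℕ} (hN : M ≤ N) :
    PP y N ≤ PP y M * Real.exp (y / M) := by
  have key : ∀ N, M ≤ N → PP y N ≤ PP y M * Real.exp (y * (1 / M - 1 / N)) := by
    intro N hN
    induction N, hN using Nat.le_induction with
    | base => simp
    | succ N hN ih =>
      have hN0 : (0 : ℝ) < N := by exact_mod_cast (by omega : 0 < N)
      have h1 : PP y (N + 1) = PP y N * (1 + y / ((N + 1 : ℕ) : ℝ) ^ 2) := by rw [PP_succ]; ring
      rw [h1]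
      have h2 : 1 + y / ((N + 1 : ℕ) : ℝ) ^ 2 ≤ Real.exp (y * (1 / N - 1 / ((N + 1 : ℕ) : ℝ))) := by
        refine le_trans ?_ (Real.add_one_le_exp _)
        have h3 : 1 / ((N + 1 : ℕ) : ℝ) ^ 2 ≤ 1 / N - 1 / ((N + 1 : ℕ) : ℝ) := by
          push_cast
          rw [div_sub_div _ _ hN0.ne' (by positivity), div_le_div_iff₀ (by positivity) (by positivity)]
          nlinarith
        have h4 := mul_le_mul_of_nonneg_left h3 hy
        have h5 : y * (1 / ((N + 1 : ℕ) : ℝ) ^ 2) = y / ((N + 1 : ℕ) : ℝ) ^ 2 := by ring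
        linarith
      calc PP y N * (1 + y / ((N + 1 : ℕ) : ℝ) ^ 2)
          ≤ (PP y M * Real.exp (y * (1 / M - 1 / N))) * Real.exp (y * (1 / N - 1 / ((N + 1 : ℕ) : ℝ))) :=
            mul_le_mul ih h2 (by positivity) (mul_nonneg (PP_pos hy M).le (Real.exp_pos _).le)
        _ = PP y M * Real.exp (y * (1 / M - 1 / ((N + 1 : ℕ) : ℝ))) := by
            rw [mul_assoc, ← Real.exp_add]
            congr 2
            ring
  refine (key N hN).trans (mul_le_mul_of_nonneg_left (Real.exp_le_exp.2 ?_) (PP_pos hy M).le)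
  have h1 : (0 : ℝ) ≤ y * (1 / N) := by positivity
  have h2 : y * (1 / M - 1 / N) = y / M - y * (1 / N) := by ring
  linarith

/-- the product up to `q` -/
lemma PP_head (q : ℕ) : ∀ m, m ≤ q → PP ((q : ℝ) ^ 2) m * ((m.factorial : ℕ) : ℝ) ^ 2 ≤ 2 ^ m * (q : ℝ) ^ (2 * m) := by
  intro m
  induction m with
  | zero => intro _; simp [PP_zero]
  | succ m ih =>
    intro hm
    have h1 := ih (by omega)
    have h2 : PP ((q : ℝ) ^ 2) (m + 1) = PP ((q : ℝ) ^ 2) m * (1 + (q : ℝ) ^ 2 / ((m + 1 : ℕ) : ℝ) ^ 2) := by rw [PP_succ]; ring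
    have h3 : (1 + (q : ℝ) ^ 2 / ((m + 1 : ℕ) : ℝ) ^ 2) * ((m + 1 : ℕ) : ℝ) ^ 2 ≤ 2 * (q : ℝ) ^ 2 := by
      have h4 : (0 : ℝ) < ((m + 1 : ℕ) : ℝ) := by positivity
      rw [add_mul, div_mul_cancel₀ _ (by positivity)]
      have h5 : ((m + 1 : ℕ) : ℝ) ≤ q := by exact_mod_cast hm
      nlinarith
    rw [h2, Nat.factorial_succ]
    push_cast at h3 ⊢
    calc PP ((q : ℝ) ^ 2) m * (1 + (q : ℝ) ^ 2 / ((m : ℝ) + 1) ^ 2) * (((m : ℝ) + 1) * ((m.factorial : ℕ) : ℝ)) ^ 2
        = (PP ((q : ℝ) ^ 2) m * ((m.factorial : ℕ) : ℝ) ^ 2) * ((1 + (q : ℝ) ^ 2 / ((m : ℝ) + 1) ^ 2) * ((m : ℝ) + 1) ^ 2) := by ring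
      _ ≤ (2 ^ m * (q : ℝ) ^ (2 * m)) * (2 * (q : ℝ) ^ 2) :=
          mul_le_mul h1 h3 (by positivity) (by positivity)
      _ = 2 ^ (m + 1) * (q : ℝ) ^ (2 * (m + 1)) := by ring

/-- `∏ t ^ (l_t)`, `t` the place of the letter from below -/
noncomputable def D : List ℕ → ℝ
  | [] => 1
  | (a :: s) => ((s.length + 1 : ℕ) : ℝ) ^ a * D s

/-- `∏ t ^ (l_t - 2)`, `t` the place of the letter from below -/
noncomputable def D' : List ℕ → ℝ
  | [] => 1
  | (a :: s) => ((s.length + 1 : ℕ) : ℝ) ^ (a - 2) * D' s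

lemma D_pos : ∀ s, 0 < D s
  | [] => by rw [D]; exact one_pos
  | (a :: s) => by rw [D]; exact mul_pos (by positivity) (D_pos s)

lemma D'_pos : ∀ s, 0 < D' s
  | [] => by rw [D']; exact one_pos
  | (a :: s) => by rw [D']; exact mul_pos (by positivity) (D'_pos s)

lemma D_eq : ∀ s : List ℕ, (∀ a ∈ s, 2 ≤ a) → D s = D' s * ((s.length.factorial : ℕ) : ℝ) ^ 2
  | [], _ => by simp [D, D']
  | (a :: s), h => by
    have h2 : 2 ≤ a := h a (by simp)
    rw [D, D', D_eq s fun x hx => h x (by simp [hx]), List.length_cons, Nat.factorial_succ]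
    obtain ⟨b, rfl⟩ : ∃ b, a = b + 2 := ⟨a - 2, by omega⟩
    rw [Nat.add_sub_cancel, pow_add]
    push_cast
    ring

lemma H_zero : ∀ (s : List ℕ) (N : ℕ), N < s.length → H s N = 0
  | [], N, h => by simp at h
  | (a :: s), N, h => by
    rw [H_cons]
    refine Finset.sum_eq_zero fun n hn => ?_
    rw [Finset.mem_range] at hn
    rw [List.length_cons] at h
    rw [H_zero s n (by omega), mul_zero]

lemma H_up {x : ℝ} (hx : 0 ≤ x) : ∀ (s : List ℕ), (∀ a ∈ s, 2 ≤ a) → ∀ N, H s N * D' s * x ^ s.length ≤ PP x N := by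
  intro s
  induction s with
  | nil =>
    intro _ N
    rw [H_nil, D', List.length_nil, pow_zero]
    simpa using one_le_PP hx N
  | cons a s ih =>
    intro h N
    have h2 : 2 ≤ a := h a (by simp)
    have ihs := ih fun y hy => h y (by simp [hy])
    induction N with
    | zero => rw [H_cons_zero, PP_zero]; simp
    | succ N ihN =>
      rw [H_cons_succ, PP_succ]
      have h3 : (((N + 1 : ℕ) : ℝ) ^ a)⁻¹ * H s N * D' (a :: s) * x ^ (a :: s).length ≤
          PP x N * (x / ((N + 1 : ℕ) : ℝ) ^ 2) := by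
        rcases Nat.lt_or_ge N s.length with h4 | h4
        · rw [H_zero s N h4]
          have := mul_nonneg (PP_pos hx N).le (by positivity : (0 : ℝ) ≤ x / ((N + 1 : ℕ) : ℝ) ^ 2)
          simpa using this
        · obtain ⟨b, rfl⟩ : ∃ b, a = b + 2 := ⟨a - 2, by omega⟩
          rw [D', List.length_cons, Nat.add_sub_cancel, pow_succ x]
          have h5 : (((N + 1 : ℕ) : ℝ) ^ (b + 2))⁻¹ * ((s.length + 1 : ℕ) : ℝ) ^ b ≤ 1 / ((N + 1 : ℕ) : ℝ) ^ 2 := by
            rw [pow_add, mul_inv, ← one_div, ← one_div, mul_right_comm]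
            refine mul_le_of_le_one_left (by positivity) ?_
            rw [one_div, inv_mul_le_iff₀ (by positivity), mul_one]
            exact pow_le_pow_left₀ (by positivity) (by exact_mod_cast (by omega : s.length + 1 ≤ N + 1)) _
          calc (((N + 1 : ℕ) : ℝ) ^ (b + 2))⁻¹ * H s N * (((s.length + 1 : ℕ) : ℝ) ^ b * D' s) * (x ^ s.length * x)
              = ((((N + 1 : ℕ) : ℝ) ^ (b + 2))⁻¹ * ((s.length + 1 : ℕ) : ℝ) ^ b) * x * (H s N * D' s * x ^ s.length) := by ring
            _ ≤ (1 / ((N + 1 : ℕ) : ℝ) ^ 2) * x * PP x N := by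
                refine mul_le_mul (mul_le_mul_of_nonneg_right h5 hx) (ihs N) ?_ (by positivity)
                exact mul_nonneg (mul_nonneg (H_nonneg s N) (D'_pos s).le) (by positivity)
            _ = PP x N * (x / ((N + 1 : ℕ) : ℝ) ^ 2) := by ring
      calc (H (a :: s) N + (((N + 1 : ℕ) : ℝ) ^ a)⁻¹ * H s N) * D' (a :: s) * x ^ (a :: s).length
          = H (a :: s) N * D' (a :: s) * x ^ (a :: s).length +
            (((N + 1 : ℕ) : ℝ) ^ a)⁻¹ * H s N * D' (a :: s) * x ^ (a :: s).length := by ring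
        _ ≤ _ := add_le_add ihN h3

/-- the value is at most `(2 e) ^ q` times its first term -/
lemma H_le_D (s : List ℕ) (hs : ∀ a ∈ s, 2 ≤ a) (N : ℕ) : H s N * D s ≤ (2 * Real.exp 1) ^ s.length := by
  rcases Nat.eq_zero_or_pos s.length with h0 | h0
  · rw [List.length_eq_zero_iff] at h0
    subst h0
    rw [H_nil, D]
    simp
  set q := s.length with hq
  have hq0 : (0 : ℝ) < q := by exact_mod_cast h0
  have h1 := H_up (x := (q : ℝ) ^ 2) (by positivity) s hs (max N q)
  rw [← hq] at h1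
  have h2 := PP_tail (y := (q : ℝ) ^ 2) (by positivity) (M := q) h0 (N := max N q) (le_max_right _ _)
  have h3 := PP_head q q le_rfl
  have h4 : (q : ℝ) ^ 2 / q = q := by field_simp
  rw [h4] at h2
  have h5 : H s N ≤ H s (max N q) := H_mono s (le_max_left _ _)
  have hf : (0 : ℝ) < ((q.factorial : ℕ) : ℝ) ^ 2 := by positivity
  have h6 : H s (max N q) * D' s * (q : ℝ) ^ (2 * q) * ((q.factorial : ℕ) : ℝ) ^ 2 ≤
      2 ^ q * (q : ℝ) ^ (2 * q) * Real.exp q := by
    calc H s (max N q) * D' s * (q : ℝ) ^ (2 * q) * ((q.factorial : ℕ) : ℝ) ^ 2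
        = (H s (max N q) * D' s * ((q : ℝ) ^ 2) ^ q) * ((q.factorial : ℕ) : ℝ) ^ 2 := by rw [pow_mul]
      _ ≤ (PP ((q : ℝ) ^ 2) q * Real.exp q) * ((q.factorial : ℕ) : ℝ) ^ 2 :=
          mul_le_mul_of_nonneg_right (h1.trans h2) hf.le
      _ = (PP ((q : ℝ) ^ 2) q * ((q.factorial : ℕ) : ℝ) ^ 2) * Real.exp q := by ring
      _ ≤ _ := mul_le_mul_of_nonneg_right h3 (Real.exp_pos _).le
  have h7 : H s (max N q) * D' s * ((q.factorial : ℕ) : ℝ) ^ 2 ≤ 2 ^ q * Real.exp q := by
    have h8 : (0 : ℝ) < (q : ℝ) ^ (2 * q) := by positivity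
    refine le_of_mul_le_mul_right ?_ h8
    calc H s (max N q) * D' s * ((q.factorial : ℕ) : ℝ) ^ 2 * (q : ℝ) ^ (2 * q)
        = H s (max N q) * D' s * (q : ℝ) ^ (2 * q) * ((q.factorial : ℕ) : ℝ) ^ 2 := by ring
      _ ≤ _ := h6
      _ = _ := by ring
  rw [D_eq s hs, ← hq]
  calc H s N * (D' s * ((q.factorial : ℕ) : ℝ) ^ 2) ≤ H s (max N q) * (D' s * ((q.factorial : ℕ) : ℝ) ^ 2) :=
        mul_le_mul_of_nonneg_right h5 (mul_nonneg (D'_pos s).le hf.le)
    _ = H s (max N q) * D' s * ((q.factorial : ℕ) : ℝ) ^ 2 := by ring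
    _ ≤ 2 ^ q * Real.exp q := h7
    _ = (2 * Real.exp 1) ^ q := by rw [mul_pow, ← Real.exp_nat_mul, mul_one]

/-- the value is at least its first term -/
lemma H_ge_D : ∀ (s : List ℕ) (N : ℕ), s.length ≤ N → 1 ≤ H s N * D s
  | [], N, _ => by rw [H_nil, D]; norm_num
  | (a :: s), N, h => by
    rw [List.length_cons] at h
    have h1 : H (a :: s) (s.length + 1) ≤ H (a :: s) N := H_mono _ h
    rw [H_cons_succ] at h1
    have h2 := H_ge_D s s.length le_rfl
    have h3 := H_nonneg (a :: s) s.length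
    rw [D]
    have h4 : (0 : ℝ) < ((s.length + 1 : ℕ) : ℝ) ^ a := by positivity
    calc (1 : ℝ) ≤ H s s.length * D s := h2
      _ = (((s.length + 1 : ℕ) : ℝ) ^ a)⁻¹ * H s s.length * (((s.length + 1 : ℕ) : ℝ) ^ a * D s) := by
          field_simp
      _ ≤ H (a :: s) N * (((s.length + 1 : ℕ) : ℝ) ^ a * D s) := by
          refine mul_le_mul_of_nonneg_right (by linarith) (mul_nonneg h4.le (D_pos s).le)

/-- the sum of `l - 2` over the letters -/
def E : List ℕ → ℕ
  | [] => 0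
  | (a :: p) => (a - 2) + E p

lemma sum_eq_E : ∀ p : List ℕ, (∀ a ∈ p, 2 ≤ a) → p.sum = E p + 2 * p.length
  | [], _ => by simp [E]
  | (a :: p), h => by
    have h2 : 2 ≤ a := h a (by simp)
    rw [List.sum_cons, E, sum_eq_E p fun x hx => h x (by simp [hx]), List.length_cons]
    omega

lemma U_zero {f : ℕ → ℝ} {M : ℕ} (hf : ∀ n, n < M → f n = 0) : ∀ (p : List ℕ) (N : ℕ), N ≤ M → p ≠ [] → U p f N = 0 := by
  intro p
  induction p with
  | nil => intro N _ h; exact absurd rfl h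
  | cons a p ih =>
    intro N hN _
    rw [U_cons]
    refine Finset.sum_eq_zero fun n hn => ?_
    rw [Finset.mem_range] at hn
    rcases eq_or_ne p [] with rfl | hp
    · rw [U_nil, hf n (by omega), mul_zero]
    · rw [ih n (by omega) hp, mul_zero]

/-- the part of the sum where the variables of `p` are larger than `M` -/
lemma U_tail {f : ℕ → ℝ} {M : ℕ} (hM : 1 ≤ M) {F y : ℝ} (hF : 0 ≤ F) (hy : 0 ≤ y) (hf : ∀ n, n < M → f n = 0)
    (hfF : ∀ n, f n ≤ F) : ∀ (p : List ℕ), (∀ a ∈ p, 2 ≤ a) → ∀ N, M ≤ N →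
      U p f N * (M : ℝ) ^ E p * y ^ p.length * PP y M ≤ F * PP y N := by
  intro p
  induction p with
  | nil =>
    intro _ N hN
    rw [U_nil, E, List.length_nil, pow_zero, pow_zero, mul_one, mul_one]
    exact mul_le_mul (hfF N) (PP_mono hy hN) (PP_pos hy M).le hF
  | cons a p ih =>
    intro h N hN
    have h2 : 2 ≤ a := h a (by simp)
    have ihs := ih fun y hy => h y (by simp [hy])
    induction N, hN using Nat.le_induction with
    | base =>
      rw [U_zero hf (a :: p) M le_rfl (by simp), zero_mul, zero_mul, zero_mul]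
      exact mul_nonneg hF (PP_pos hy M).le
    | succ N hN ihN =>
      rw [U_cons_succ, PP_succ]
      obtain ⟨b, rfl⟩ : ∃ b, a = b + 2 := ⟨a - 2, by omega⟩
      have h3 : (((N + 1 : ℕ) : ℝ) ^ (b + 2))⁻¹ * U p f N * (M : ℝ) ^ E ((b + 2) :: p) * y ^ ((b + 2) :: p).length * PP y M ≤
          F * (PP y N * (y / ((N + 1 : ℕ) : ℝ) ^ 2)) := by
        rw [E, List.length_cons, Nat.add_sub_cancel, pow_succ y, pow_add (M : ℝ)]
        have h5 : (((N + 1 : ℕ) : ℝ) ^ (b + 2))⁻¹ * (M : ℝ) ^ b ≤ 1 / ((N + 1 : ℕ) : ℝ) ^ 2 := by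
          rw [pow_add, mul_inv, ← one_div, ← one_div, mul_right_comm]
          refine mul_le_of_le_one_left (by positivity) ?_
          rw [one_div, inv_mul_le_iff₀ (by positivity), mul_one]
          exact pow_le_pow_left₀ (by positivity) (by exact_mod_cast (by omega : M ≤ N + 1)) _
        have h6 : 0 ≤ F * PP y N := mul_nonneg hF (PP_pos hy N).le
        calc (((N + 1 : ℕ) : ℝ) ^ (b + 2))⁻¹ * U p f N * ((M : ℝ) ^ b * (M : ℝ) ^ E p) * (y ^ p.length * y) * PP y M
            = ((((N + 1 : ℕ) : ℝ) ^ (b + 2))⁻¹ * (M : ℝ) ^ b) * y *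
              (U p f N * (M : ℝ) ^ E p * y ^ p.length * PP y M) := by ring
          _ ≤ ((((N + 1 : ℕ) : ℝ) ^ (b + 2))⁻¹ * (M : ℝ) ^ b) * y * (F * PP y N) :=
              mul_le_mul_of_nonneg_left (ihs N hN) (by positivity)
          _ ≤ (1 / ((N + 1 : ℕ) : ℝ) ^ 2) * y * (F * PP y N) :=
              mul_le_mul_of_nonneg_right (mul_le_mul_of_nonneg_right h5 hy) h6
          _ = F * (PP y N * (y / ((N + 1 : ℕ) : ℝ) ^ 2)) := by ring
      calc (U ((b + 2) :: p) f N + (((N + 1 : ℕ) : ℝ) ^ (b + 2))⁻¹ * U p f N) * (M : ℝ) ^ E ((b + 2) :: p) *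
            y ^ ((b + 2) :: p).length * PP y M
          = U ((b + 2) :: p) f N * (M : ℝ) ^ E ((b + 2) :: p) * y ^ ((b + 2) :: p).length * PP y M +
            (((N + 1 : ℕ) : ℝ) ^ (b + 2))⁻¹ * U p f N * (M : ℝ) ^ E ((b + 2) :: p) * y ^ ((b + 2) :: p).length * PP y M := by
            ring
        _ ≤ F * PP y N + F * (PP y N * (y / ((N + 1 : ℕ) : ℝ) ^ 2)) := add_le_add ihN h3
        _ = _ := by ring

lemma D_app : ∀ (p s : List ℕ) (n : ℕ), p.length + s.length ≤ n → D (p ++ s) ≤ (n : ℝ) ^ p.sum * D s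
  | [], s, n, _ => by simp
  | (a :: p), s, n, h => by
    rw [List.length_cons] at h
    rw [List.cons_append, D, List.sum_cons, pow_add, List.length_append, mul_assoc]
    refine mul_le_mul ?_ (D_app p s n (by omega)) (D_pos _).le (by positivity)
    exact pow_le_pow_left₀ (by positivity) (by exact_mod_cast (by omega : p.length + s.length + 1 ≤ n)) _

/-- the part of the multiple zeta value where the last variable of `p` is larger than `60 n` is at most half its first
term -/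
lemma far (p s : List ℕ) (hp : ∀ a ∈ p, 2 ≤ a) (hs : ∀ a ∈ s, 2 ≤ a) (hl : 1 ≤ p.length) (hq : s.length ≤ p.length)
    (N : ℕ) : U p (fun n => if 60 * (p.length + s.length) ≤ n then H s n else 0) N * D (p ++ s) ≤ 1 / 2 := by
  set j := p.length with hj
  set q := s.length with hq'
  set n := j + q with hn
  set M := 60 * n with hMdef
  set f : ℕ → ℝ := fun m => if M ≤ m then H s m else 0 with hf
  have hj0 : (0 : ℝ) < j := by exact_mod_cast hl
  have hn0 : (0 : ℝ) < n := by exact_mod_cast (by omega : 0 < n)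
  have hM1 : 1 ≤ M := by omega
  have hM0 : (0 : ℝ) < M := by exact_mod_cast hM1
  have hMn : (M : ℝ) = 60 * n := by rw [hMdef]; push_cast; ring
  have he := Real.exp_one_lt_d9
  have he0 := Real.exp_pos 1
  have hDs := D_pos s
  have hD := D_pos (p ++ s)
  rcases Nat.lt_or_ge N M with hN | hN
  · rw [U_zero (M := M) (fun m hm => by rw [hf]; simp only; rw [if_neg (by omega)]) p N hN.le (by
      intro h; rw [h] at hj; simp at hj; omega), zero_mul]
    norm_num
  set F : ℝ := (2 * Real.exp 1) ^ q / D s with hF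
  have hF0 : 0 ≤ F := by positivity
  have h1 := U_tail (f := f) hM1 (F := F) (y := (j : ℝ) * M) hF0 (by positivity)
    (fun m hm => by rw [hf]; simp only; rw [if_neg (by omega)])
    (fun m => by
      rw [hf]
      simp only
      split_ifs
      · rw [hF, le_div_iff₀ hDs]
        exact H_le_D s hs m
      · exact hF0) p hp N hN
  have h2 := PP_tail (y := (j : ℝ) * M) (by positivity) hM1 hN
  have h3 : (j : ℝ) * M / M = j := by field_simp
  rw [h3] at h2
  have hPM := PP_pos (x := (j : ℝ) * M) (by positivity) M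
  rw [← hj] at h1
  have h4 : U p f N * (M : ℝ) ^ E p * ((j : ℝ) * M) ^ j ≤ F * Real.exp j := by
    refine le_of_mul_le_mul_right ?_ hPM
    refine h1.trans ((mul_le_mul_of_nonneg_left h2 hF0).trans (le_of_eq ?_))
    ring
  -- the other factor
  have h5 : D (p ++ s) ≤ (n : ℝ) ^ p.sum * D s := D_app p s n (by omega)
  have h6 : p.sum = E p + 2 * j := sum_eq_E p hp
  have hUe : 0 < (M : ℝ) ^ E p * ((j : ℝ) * M) ^ j := by positivity
  have h7 : U p f N ≤ F * Real.exp j / ((M : ℝ) ^ E p * ((j : ℝ) * M) ^ j) := by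
    rw [le_div_iff₀ hUe, ← mul_assoc]
    exact h4
  have hX : (0 : ℝ) ≤ F * Real.exp j / ((M : ℝ) ^ E p * ((j : ℝ) * M) ^ j) := by positivity
  calc U p f N * D (p ++ s) ≤ (F * Real.exp j / ((M : ℝ) ^ E p * ((j : ℝ) * M) ^ j)) * ((n : ℝ) ^ p.sum * D s) :=
        mul_le_mul h7 h5 hD.le hX
    _ = (2 * Real.exp 1) ^ q * (Real.exp 1) ^ j * ((n : ℝ) ^ E p / (M : ℝ) ^ E p) * (((n : ℝ) / M) ^ j * ((n : ℝ) / j) ^ j) := by
        have e : Real.exp (j : ℝ) = Real.exp 1 ^ j := by rw [← Real.exp_nat_mul, mul_one]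
        rw [hF, h6, pow_add, mul_pow (j : ℝ), div_pow, div_pow, pow_mul' (n : ℝ) 2 j, sq, e]
        field_simp
    _ ≤ (2 * Real.exp 1) ^ j * (Real.exp 1) ^ j * 1 * ((1 / 60) ^ j * 2 ^ j) := by
        have i1 : (2 * Real.exp 1) ^ q ≤ (2 * Real.exp 1) ^ j :=
          pow_le_pow_right₀ (by have := Real.add_one_le_exp (1 : ℝ); linarith) hq
        have i2 : (n : ℝ) ^ E p / (M : ℝ) ^ E p ≤ 1 := by
          rw [div_le_one (by positivity)]
          exact pow_le_pow_left₀ hn0.le (by rw [hMn]; linarith) _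
        have i3 : (n : ℝ) / M = 1 / 60 := by rw [hMn]; field_simp
        have i4 : ((n : ℝ) / j) ^ j ≤ 2 ^ j := by
          refine pow_le_pow_left₀ (by positivity) ?_ _
          rw [div_le_iff₀ hj0]
          exact_mod_cast (by omega : n ≤ 2 * j)
        rw [i3]
        gcongr
    _ = (4 * Real.exp 1 ^ 2 / 60) ^ j := by
        rw [mul_one, ← mul_pow, ← mul_pow, ← mul_pow]
        congr 1
        ring
    _ ≤ (1 / 2) ^ j := by
        refine pow_le_pow_left₀ (by positivity) ?_ _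
        nlinarith
    _ ≤ (1 / 2) ^ 1 := pow_le_pow_of_le_one (by norm_num) (by norm_num) hl
    _ = 1 / 2 := by norm_num

/-- the exchange, for the truncated sums -/
lemma swap_H (p1 p2 s : List ℕ) (α β M : ℕ) (hM : 1 ≤ M) (N : ℕ) :
    (1 + ((p2.length : ℝ) + 1) / M) * H (p1 ++ (α + 1) :: (p2 ++ β :: s)) N -
      ((p2.length : ℝ) + 1) / M * U (p1 ++ (α + 1) :: (p2 ++ [β])) (fun n => if M ≤ n then H s n else 0) N ≤
        H (p1 ++ α :: (p2 ++ (β + 1) :: s)) N := by
  set f : ℕ → ℝ := fun n => if M ≤ n then H s n else 0 with hf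
  set d : ℝ := ((p2.length : ℝ) + 1) / M with hd
  have hd0 : 0 ≤ d := by positivity
  have hM0 : (0 : ℝ) < M := by exact_mod_cast hM
  -- the inner functions
  have hin : ∀ a n : ℕ, n + p2.length ≤ a →
      (1 + d) * U [β] (H s) n + (-d) * U [β] f n ≤ ((a : ℝ) + 1) * U [β + 1] (H s) n := by
    intro a n hn
    rw [U_cons, U_cons, U_cons, Finset.mul_sum, Finset.mul_sum, Finset.mul_sum, ← Finset.sum_add_distrib]
    refine Finset.sum_le_sum fun b hb => ?_
    rw [Finset.mem_range] at hb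
    simp only [U_nil]
    have hb0 : (0 : ℝ) < (b : ℝ) + 1 := by positivity
    have hH := H_nonneg s b
    have hba : (b : ℝ) + 1 + p2.length ≤ a := by exact_mod_cast (by omega : b + 1 + p2.length ≤ a)
    have e1 : ((a : ℝ) + 1) * ((((b + 1 : ℕ) : ℝ) ^ (β + 1))⁻¹ * H s b) =
        ((((b + 1 : ℕ) : ℝ) ^ β)⁻¹ * H s b) * (((a : ℝ) + 1) / ((b : ℝ) + 1)) := by
      rw [pow_succ]
      push_cast
      field_simp
    rw [e1]
    have hX : 0 ≤ (((b + 1 : ℕ) : ℝ) ^ β)⁻¹ * H s b := mul_nonneg (by positivity) hH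
    rw [hf]
    simp only
    split_ifs with hMb
    · have h1 : (1 : ℝ) ≤ ((a : ℝ) + 1) / ((b : ℝ) + 1) := by
        rw [le_div_iff₀ hb0]
        have : (0 : ℝ) ≤ (p2.length : ℝ) := Nat.cast_nonneg _
        linarith
      nlinarith [mul_le_mul_of_nonneg_left h1 hX]
    · have h1 : 1 + d ≤ ((a : ℝ) + 1) / ((b : ℝ) + 1) := by
        rw [le_div_iff₀ hb0]
        have h2 : d * ((b : ℝ) + 1) ≤ (p2.length : ℝ) + 1 := by
          rw [hd, div_mul_eq_mul_div, div_le_iff₀ hM0]
          refine mul_le_mul_of_nonneg_left ?_ (by positivity)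
          exact_mod_cast (by omega : b + 1 ≤ M)
        linarith
      have h2 := mul_le_mul_of_nonneg_left h1 hX
      linarith
  have hmid : ∀ a : ℕ, (1 + d) * U p2 (U [β] (H s)) a + (-d) * U p2 (U [β] f) a ≤
      ((a : ℝ) + 1) * U p2 (U [β + 1] (H s)) a := by
    intro a
    have h1 := U_le (f := fun n => (1 + d) * U [β] (H s) n + (-d) * U [β] f n)
      (g := fun n => ((a : ℝ) + 1) * U [β + 1] (H s) n + 0 * 0) p2 a (fun n hn => by
        simpa using hin a n hn)
    rw [U_lin] at h1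
    rw [U_lin p2 (U [β + 1] (H s)) (fun _ => 0)] at h1
    simpa using h1
  have e1 : H (p1 ++ (α + 1) :: (p2 ++ β :: s)) N = U p1 (U [α + 1] (U p2 (U [β] (H s)))) N := by
    rw [H_app, show (α + 1) :: (p2 ++ β :: s) = [α + 1] ++ (p2 ++ ([β] ++ s)) from rfl]
    congr 1
    funext m
    rw [H_app]
    congr 1
    funext m
    rw [H_app]
    congr 1
  have e2 : H (p1 ++ α :: (p2 ++ (β + 1) :: s)) N = U p1 (U [α] (U p2 (U [β + 1] (H s)))) N := by
    rw [H_app, show α :: (p2 ++ (β + 1) :: s) = [α] ++ (p2 ++ ([β + 1] ++ s)) from rfl]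
    congr 1
    funext m
    rw [H_app]
    congr 1
    funext m
    rw [H_app]
    congr 1
  have e3 : U (p1 ++ (α + 1) :: (p2 ++ [β])) f N = U p1 (U [α + 1] (U p2 (U [β] f))) N := by
    rw [U_app, show (α + 1) :: (p2 ++ [β]) = [α + 1] ++ (p2 ++ [β]) from rfl]
    congr 1
    funext m
    rw [U_app]
    congr 1
    funext m
    rw [U_app]
  rw [e1, e2, e3]
  have h1 := U_le (f := fun m => (1 + d) * U [α + 1] (U p2 (U [β] (H s))) m + (-d) * U [α + 1] (U p2 (U [β] f)) m)
    (g := U [α] (U p2 (U [β + 1] (H s)))) p1 N (fun m _ => by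
      simp only [U_cons, U_nil]
      rw [Finset.mul_sum, Finset.mul_sum, ← Finset.sum_add_distrib]
      refine Finset.sum_le_sum fun a _ => ?_
      have h2 := hmid a
      have ha0 : (0 : ℝ) < (a : ℝ) + 1 := by positivity
      have e4 : (((a + 1 : ℕ) : ℝ) ^ α)⁻¹ * U p2 (U [β + 1] (H s)) a =
          (((a + 1 : ℕ) : ℝ) ^ (α + 1))⁻¹ * (((a : ℝ) + 1) * U p2 (U [β + 1] (H s)) a) := by
        rw [pow_succ]
        push_cast
        field_simp
      rw [e4]
      have h3 := mul_le_mul_of_nonneg_left h2 (by positivity : (0 : ℝ) ≤ (((a + 1 : ℕ) : ℝ) ^ (α + 1))⁻¹)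
      linarith)
  rw [U_lin] at h1
  linarith

lemma adm_of {s : List ℕ} (h : ∀ a ∈ s, 2 ≤ a) : Adm s :=
  ⟨fun a ha => le_trans (by norm_num) (h a ha), fun a t e => h a (by rw [e]; simp)⟩

/-- **the exchange**: if a unit of a letter is moved to another letter, about half the length of the word closer to the
small variables, then the multiple zeta value grows by a factor -/
theorem val_exch (p1 p2 s : List ℕ) (α β : ℕ) (hα : 2 ≤ α) (hβ : 2 ≤ β) (h1 : ∀ a ∈ p1, 2 ≤ a) (h2 : ∀ a ∈ p2, 2 ≤ a)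
    (h3 : ∀ a ∈ s, 2 ≤ a) (hq : s.length ≤ p1.length + p2.length + 2)
    (hd : p1.length + p2.length + 2 + s.length ≤ 3 * (p2.length + 1)) :
    (1 + 1 / 360) * val (p1 ++ (α + 1) :: (p2 ++ β :: s)) ≤ val (p1 ++ α :: (p2 ++ (β + 1) :: s)) := by
  have m1 : ∀ a ∈ p1 ++ (α + 1) :: (p2 ++ β :: s), 2 ≤ a := by
    intro a ha
    simp only [List.mem_append, List.mem_cons] at ha
    rcases ha with h | h | h | h | h
    · exact h1 a h
    · omega
    · exact h2 a h
    · omega
    · exact h3 a h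
  have m2 : ∀ a ∈ p1 ++ α :: (p2 ++ (β + 1) :: s), 2 ≤ a := by
    intro a ha
    simp only [List.mem_append, List.mem_cons] at ha
    rcases ha with h | h | h | h | h
    · exact h1 a h
    · omega
    · exact h2 a h
    · omega
    · exact h3 a h
  set p := p1 ++ (α + 1) :: (p2 ++ [β]) with hp
  have hpl : p.length = p1.length + p2.length + 2 := by
    rw [hp]
    simp only [List.length_append, List.length_cons, List.length_nil]
    omega
  have m3 : ∀ a ∈ p, 2 ≤ a := by
    intro a ha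
    rw [hp] at ha
    simp only [List.mem_append, List.mem_cons, List.not_mem_nil, or_false] at ha
    rcases ha with h | h | h | h
    · exact h1 a h
    · omega
    · exact h2 a h
    · omega
  have hps : p ++ s = p1 ++ (α + 1) :: (p2 ++ β :: s) := by rw [hp]; simp
  have hlim1 := tendsto_H _ (adm_of m1)
  have hlim2 := tendsto_H _ (adm_of m2)
  refine le_of_tendsto_of_tendsto (hlim1.const_mul (1 + 1 / 360)) hlim2 ?_
  filter_upwards [eventually_ge_atTop (p.length + s.length)] with N hN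
  have h4 := far p s m3 h3 (by omega) (by omega) N
  have h5 := H_ge_D (p ++ s) N (by rw [List.length_append]; exact hN)
  have hD := D_pos (p ++ s)
  have h6 := swap_H p1 p2 s α β (60 * (p.length + s.length)) (by omega) N
  rw [← hp] at h6
  rw [hps] at h4 h5 hD
  set V := H (p1 ++ (α + 1) :: (p2 ++ β :: s)) N with hV
  set X := U p (fun n => if 60 * (p.length + s.length) ≤ n then H s n else 0) N with hX
  set d : ℝ := ((p2.length : ℝ) + 1) / ((60 * (p.length + s.length) : ℕ) : ℝ) with hdd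
  have hXV : X ≤ 1 / 2 * V := by
    refine le_of_mul_le_mul_right ?_ hD
    linarith
  have hd1 : 1 / 180 ≤ d := by
    rw [hdd, div_le_div_iff₀ (by norm_num) (by exact_mod_cast (by omega : 0 < 60 * (p.length + s.length)))]
    have : ((60 * (p.length + s.length) : ℕ) : ℝ) ≤ 180 * ((p2.length : ℝ) + 1) := by
      exact_mod_cast (by omega : 60 * (p.length + s.length) ≤ 180 * (p2.length + 1))
    linarith
  have hV0 : 0 ≤ V := H_nonneg _ _
  have h7 : d * X ≤ d * (1 / 2 * V) := mul_le_mul_of_nonneg_left hXV (by linarith)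
  nlinarith [mul_le_mul_of_nonneg_right hd1 hV0]

end Pool.Agent.L5helper80.MZ
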