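import Mathlib
import Pool.Agent.L5helper5.SP.Main

/-!
# Few words in the letters `2`, `3` have a value in a short interval

The words are cut in two halves; the `i`-th letter of the first half and the `i`-th letter of the second half form a pair.
-/

set_option autoImplicit false

namespace Pool.Agent.L5helper80.MZ

open Finset
open Pool.Agent.L5helper5.SP

/-- the letters at the places `0, 2, 4, ...` (complete pairs only) -/
def ev : List ℕ → List ℕ
  | a :: _ :: l => a :: ev l
  | [_] => []
  | [] => []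

/-- the letters at the places `1, 3, 5, ...` -/
def od : List ℕ → List ℕ
  | _ :: b :: l => b :: od l
  | [_] => []
  | [] => []

/-- the last letter if the length is odd -/
def re : List ℕ → List ℕ
  | _ :: _ :: l => re l
  | [a] => [a]
  | [] => []

/-- the word whose halves are the letters at even and odd places -/
def ph (z : List ℕ) : List ℕ := ev z ++ (od z ++ re z)

lemma len_ev : ∀ z : List ℕ, (ev z).length = z.length / 2
  | [] => rfl
  | [_] => by simp [ev]
  | _ :: _ :: l => by
    rw [ev, List.length_cons, List.length_cons, List.length_cons, len_ev l]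
    omega

lemma len_od : ∀ z : List ℕ, (od z).length = z.length / 2
  | [] => rfl
  | [_] => by simp [od]
  | _ :: _ :: l => by
    rw [od, List.length_cons, List.length_cons, List.length_cons, len_od l]
    omega

lemma len_re : ∀ z : List ℕ, (re z).length = z.length % 2
  | [] => rfl
  | [_] => rfl
  | _ :: _ :: l => by
    rw [re, List.length_cons, List.length_cons, len_re l]
    omega

lemma len_ph (z : List ℕ) : (ph z).length = z.length := by
  rw [ph, List.length_append, List.length_append, len_ev, len_od, len_re]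
  omega

lemma ev_app : ∀ p q : List ℕ, Even p.length → ev (p ++ q) = ev p ++ ev q
  | [], q, _ => rfl
  | [_], q, h => by simp at h
  | a :: b :: l, q, h => by
    have h' : Even l.length := by
      rw [List.length_cons, List.length_cons] at h
      rcases h with ⟨m, hm⟩
      exact ⟨m - 1, by omega⟩
    rw [List.cons_append, List.cons_append, ev, ev, ev_app l q h', List.cons_append]

lemma od_app : ∀ p q : List ℕ, Even p.length → od (p ++ q) = od p ++ od q
  | [], q, _ => rfl
  | [_], q, h => by simp at h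
  | a :: b :: l, q, h => by
    have h' : Even l.length := by
      rw [List.length_cons, List.length_cons] at h
      rcases h with ⟨m, hm⟩
      exact ⟨m - 1, by omega⟩
    rw [List.cons_append, List.cons_append, od, od, od_app l q h', List.cons_append]

lemma re_app : ∀ p q : List ℕ, Even p.length → re (p ++ q) = re q
  | [], q, _ => rfl
  | [_], q, h => by simp at h
  | a :: b :: l, q, h => by
    have h' : Even l.length := by
      rw [List.length_cons, List.length_cons] at h
      rcases h with ⟨m, hm⟩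
      exact ⟨m - 1, by omega⟩
    rw [List.cons_append, List.cons_append, re, re_app l q h']

lemma mem_ev : ∀ (z : List ℕ) (x : ℕ), x ∈ ev z → x ∈ z
  | [], x, h => by simp [ev] at h
  | [_], x, h => by simp [ev] at h
  | a :: b :: l, x, h => by
    rw [ev, List.mem_cons] at h
    rcases h with h | h
    · simp [h]
    · have := mem_ev l x h
      simp [this]

lemma mem_od : ∀ (z : List ℕ) (x : ℕ), x ∈ od z → x ∈ z
  | [], x, h => by simp [od] at h
  | [_], x, h => by simp [od] at h
  | a :: b :: l, x, h => by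
    rw [od, List.mem_cons] at h
    rcases h with h | h
    · simp [h]
    · have := mem_od l x h
      simp [this]

lemma mem_re : ∀ (z : List ℕ) (x : ℕ), x ∈ re z → x ∈ z
  | [], x, h => by simp [re] at h
  | [_], x, h => by simpa [re] using h
  | a :: b :: l, x, h => by
    rw [re] at h
    have := mem_re l x h
    simp [this]

lemma ph_L23 {z : List ℕ} (h : L23 z) : L23 (ph z) := by
  intro x hx
  rw [ph, List.mem_append, List.mem_append] at hx
  rcases hx with hx | hx | hx
  · exact h x (mem_ev z x hx)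
  · exact h x (mem_od z x hx)
  · exact h x (mem_re z x hx)

lemma sum_parts : ∀ z : List ℕ, (ev z).sum + ((od z).sum + (re z).sum) = z.sum
  | [] => rfl
  | [a] => by simp [ev, od, re]
  | a :: b :: l => by
    rw [ev, od, re, List.sum_cons, List.sum_cons, List.sum_cons, List.sum_cons, ← sum_parts l]
    ring

lemma ph_sum (z : List ℕ) : (ph z).sum = z.sum := by
  rw [ph, List.sum_append, List.sum_append, sum_parts]

lemma parts_inj : ∀ z z' : List ℕ, z.length = z'.length → ev z = ev z' → od z = od z' → re z = re z' → z = z'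
  | [], [], _, _, _, _ => rfl
  | [], _ :: _, h, _, _, _ => by simp at h
  | _ :: _, [], h, _, _, _ => by simp at h
  | [a], [b], _, _, _, h => by simpa [re] using h
  | [_], _ :: _ :: _, h, _, _, _ => by simp at h
  | _ :: _ :: _, [_], h, _, _, _ => by simp at h
  | a :: b :: l, a' :: b' :: l', h, h1, h2, h3 => by
    rw [ev, ev, List.cons.injEq] at h1
    rw [od, od, List.cons.injEq] at h2
    rw [re, re] at h3
    rw [List.length_cons, List.length_cons, List.length_cons, List.length_cons] at h
    rw [h1.1, h2.1, parts_inj l l' (by omega) h1.2 h2.2 h3]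

lemma ph_inj : Function.Injective ph := by
  intro z z' h
  have h0 : z.length = z'.length := by rw [← len_ph z, ← len_ph z', h]
  rw [ph, ph] at h
  obtain ⟨h1, h2⟩ := List.append_inj h (by rw [len_ev, len_ev, h0])
  obtain ⟨h3, h4⟩ := List.append_inj h2 (by rw [len_od, len_od, h0])
  exact parts_inj z z' h0 h1 h3 h4

lemma ph_image (k : ℕ) : (Wd k).image ph = Wd k := by
  refine Finset.eq_of_subset_of_card_le ?_ ?_
  · intro w hw
    rw [mem_image] at hw
    obtain ⟨z, hz, rfl⟩ := hw
    rw [mem_Wd] at hz ⊢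
    exact ⟨ph_L23 hz.1, by rw [ph_sum, hz.2]⟩
  · rw [card_image_of_injective _ ph_inj]

/-- exchanging the letters of a pair changes the function by at least `c` -/
def Grow (c : ℝ) (G : List ℕ → ℝ) : Prop :=
  ∀ p q : List ℕ, L23 p → L23 q → Even p.length → G (p ++ 3 :: 2 :: q) + c ≤ G (p ++ 2 :: 3 :: q)

lemma wd_grow {c : ℝ} (hc : 0 ≤ c) {F : List ℕ → ℝ} (hF : Grow c F) {s : List ℕ} (hs : Sk s) : ∀ (p : List ℕ) (_ : L23 p)
    (_ : Even p.length) (χ χ' : ℕ → Bool) (_ : ∀ i < s.count 5, χ i = true → χ' i = true),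
    F (p ++ wd s χ) ≤ F (p ++ wd s χ') ∧
      ((∃ i < s.count 5, χ i = false ∧ χ' i = true) → F (p ++ wd s χ) + c ≤ F (p ++ wd s χ')) := by
  induction hs with
  | nil =>
    intro p _ _ χ χ' _
    refine ⟨by simp [wd], ?_⟩
    rintro ⟨i, hi, -⟩
    simp at hi
  | two =>
    intro p _ _ χ χ' _
    refine ⟨by simp [wd], ?_⟩
    rintro ⟨i, hi, -⟩
    simp at hi
  | three =>
    intro p _ _ χ χ' _
    refine ⟨by simp [wd], ?_⟩
    rintro ⟨i, hi, -⟩
    simp at hi
  | cons a s ha hs ih =>
    intro p hp hpe χ χ' h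
    have h22 : L23 [2, 2] := by intro x hx; simp at hx; omega
    have h33 : L23 [3, 3] := by intro x hx; simp at hx; omega
    have h23 : L23 [2, 3] := by intro x hx; simp at hx; omega
    have h32 : L23 [3, 2] := by intro x hx; simp at hx; omega
    have hpe' : ∀ x y : ℕ, Even (p ++ [x, y]).length := by
      intro x y
      rw [List.length_append]
      exact hpe.add (by simp)
    rcases ha with rfl | rfl | rfl
    · have e : ∀ χ, p ++ wd (4 :: s) χ = (p ++ [2, 2]) ++ wd s χ := fun χ => by simp [wd]
      have hc' : (4 :: s).count 5 = s.count 5 := by simp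
      rw [e, e, hc']
      rw [hc'] at h
      exact ih _ (L23_app hp h22) (hpe' _ _) χ χ' h
    · rw [List.count_cons_self] at h ⊢
      have h' : ∀ i < s.count 5, (fun i => χ (i + 1)) i = true → (fun i => χ' (i + 1)) i = true :=
        fun i hi => h (i + 1) (by omega)
      have hshift : (∃ i < s.count 5 + 1, χ i = false ∧ χ' i = true) →
          (χ 0 = false ∧ χ' 0 = true) ∨
            ∃ i < s.count 5, (fun i => χ (i + 1)) i = false ∧ (fun i => χ' (i + 1)) i = true := by
        rintro ⟨i, hi, h1⟩
        rcases Nat.eq_zero_or_pos i with rfl | hi0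
        · exact Or.inl h1
        · obtain ⟨j, rfl⟩ : ∃ j, i = j + 1 := ⟨i - 1, by omega⟩
          exact Or.inr ⟨j, by omega, h1⟩
      by_cases h1 : χ 0 = true
      · have h2 : χ' 0 = true := h 0 (by omega) h1
        have e1 : p ++ wd (5 :: s) χ = (p ++ [2, 3]) ++ wd s (fun i => χ (i + 1)) := by simp [wd, h1]
        have e2 : p ++ wd (5 :: s) χ' = (p ++ [2, 3]) ++ wd s (fun i => χ' (i + 1)) := by simp [wd, h2]
        rw [e1, e2]
        have h3 := ih _ (L23_app hp h23) (hpe' _ _) _ _ h'
        refine ⟨h3.1, fun h4 => ?_⟩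
        rcases hshift h4 with h5 | h5
        · rw [h1] at h5; exact absurd h5.1 (by simp)
        · exact h3.2 h5
      · have e1 : p ++ wd (5 :: s) χ = (p ++ [3, 2]) ++ wd s (fun i => χ (i + 1)) := by simp [wd, h1]
        by_cases h2 : χ' 0 = true
        · have e2 : p ++ wd (5 :: s) χ' = p ++ 2 :: 3 :: wd s (fun i => χ' (i + 1)) := by simp [wd, h2]
          have h3 := ih _ (L23_app hp h32) (hpe' _ _) _ _ h'
          have h4 := hF p (wd s (fun i => χ' (i + 1))) hp (wd_L23 hs _) hpe
          have e3 : (p ++ [3, 2]) ++ wd s (fun i => χ' (i + 1)) =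
            p ++ 3 :: 2 :: wd s (fun i => χ' (i + 1)) := by simp
          rw [e3] at h3
          rw [e1, e2]
          have h5 : F (p ++ [3, 2] ++ wd s fun i => χ (i + 1)) + c ≤ F (p ++ 2 :: 3 :: wd s fun i => χ' (i + 1)) := by
            linarith [h3.1]
          exact ⟨by linarith, fun _ => h5⟩
        · have e2 : p ++ wd (5 :: s) χ' = (p ++ [3, 2]) ++ wd s (fun i => χ' (i + 1)) := by simp [wd, h2]
          rw [e1, e2]
          have h3 := ih _ (L23_app hp h32) (hpe' _ _) _ _ h'
          refine ⟨h3.1, fun h4 => ?_⟩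
          rcases hshift h4 with h5 | h5
          · exact absurd h5.2 h2
          · exact h3.2 h5
    · have e : ∀ χ, p ++ wd (6 :: s) χ = (p ++ [3, 3]) ++ wd s χ := fun χ => by simp [wd]
      have hc' : (6 :: s).count 5 = s.count 5 := by simp
      rw [e, e, hc']
      rw [hc'] at h
      exact ih _ (L23_app hp h33) (hpe' _ _) χ χ' h

/-- Sperner's theorem: few words with the same pair sums have a value in a half-open interval of length `c` -/
lemma cube_le {c : ℝ} (hc : 0 ≤ c) {F : List ℕ → ℝ} (hF : Grow c F) {s : List ℕ} (hs : Sk s) (x : ℝ) :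
    (Finset.univ.filter fun A : Finset (Fin (s.count 5)) => x ≤ F (wd s (ori A)) ∧ F (wd s (ori A)) < x + c).card ≤
      (s.count 5).choose (s.count 5 / 2) := by
  classical
  have h1 : IsAntichain (· ⊆ ·) ((Finset.univ.filter fun A : Finset (Fin (s.count 5)) =>
      x ≤ F (wd s (ori A)) ∧ F (wd s (ori A)) < x + c : Finset (Finset (Fin (s.count 5)))) :
        Set (Finset (Fin (s.count 5)))) := by
    intro A hA B hB hne hsub
    rw [Finset.mem_coe, Finset.mem_filter] at hA hB
    have h2 : ∀ i < s.count 5, ori A i = true → ori B i = true := by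
      intro i hi h
      exact (ori_true B ⟨i, hi⟩).2 (hsub ((ori_true A ⟨i, hi⟩).1 h))
    obtain ⟨i, hiB, hiA⟩ : ∃ i ∈ B, i ∉ A := by
      by_contra hcon
      push Not at hcon
      exact hne (Finset.Subset.antisymm hsub hcon)
    have h3 := (wd_grow hc hF hs [] (by intro x hx; simp at hx) (by simp) (ori A) (ori B) h2).2
      ⟨i, i.2, by
        rw [← Bool.not_eq_true]
        exact fun h => hiA ((ori_true A i).1 h), (ori_true B i).2 hiB⟩
    rw [List.nil_append, List.nil_append] at h3
    linarith [hA.2.1, hB.2.2]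
  have h2 := h1.sperner
  rwa [Fintype.card_fin] at h2

/-- a property of words which holds for few words of each Boolean lattice holds for few words -/
theorem few' (P : List ℕ → Prop) [DecidablePred P]
    (hP : ∀ s, Sk s → (Finset.univ.filter fun A : Finset (Fin (s.count 5)) => P (wd s (ori A))).card ≤
      (s.count 5).choose (s.count 5 / 2)) (k : ℕ) (hk : 1 ≤ k) :
    (((Wd k).filter P).card : ℝ) ≤ 200 * (Wd k).card / √k := by
  classical
  have hk0 : (0 : ℝ) < k := by exact_mod_cast hk
  have hsk : (0 : ℝ) < √k := Real.sqrt_pos.2 hk0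
  rcases Nat.lt_or_ge k 2 with h2 | h2
  · obtain rfl : k = 1 := by omega
    simp [Wd]
  have fc : ∀ s, Sk s → (((Wd k).filter P).filter fun w => sk w = s).card ≤ (s.count 5).choose (s.count 5 / 2) := by
    intro s hs
    refine le_trans ?_ (hP s hs)
    have hsub : ((Wd k).filter P).filter (fun w => sk w = s) ⊆
        (univ.filter fun A : Finset (Fin (s.count 5)) => P (wd s (ori A))).image (fun A => wd s (ori A)) := by
      intro w hw
      rw [mem_filter, mem_filter, mem_Wd] at hw
      obtain ⟨⟨⟨h1, -⟩, h2⟩, h3⟩ := hw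
      obtain ⟨χ, hχ⟩ := exists_wd w h1
      rw [h3] at hχ
      have e : wd s (ori (univ.filter fun i : Fin (s.count 5) => χ i = true)) = w := by
        rw [← hχ]
        refine wd_congr hs _ _ fun i hi => ?_
        rw [Bool.eq_iff_iff]
        rw [ori_true _ (⟨i, hi⟩ : Fin (s.count 5)), mem_filter]
        simp
      rw [mem_image]
      refine ⟨univ.filter fun i : Fin (s.count 5) => χ i = true, ?_, e⟩
      rw [mem_filter]
      exact ⟨mem_univ _, by rw [e]; exact h2⟩
    exact (card_le_card hsub).trans card_image_le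
  -- the sum over the pair sums
  have h1 : ((Wd k).filter P).card ≤ ∑ s ∈ SS k, (s.count 5).choose (s.count 5 / 2) := by
    rw [card_eq_sum_card_fiberwise (f := sk) (t := SS k)]
    · exact sum_le_sum fun s hs => fc s (mem_SS hs).1
    · intro w hw
      rw [mem_coe, mem_filter] at hw
      exact mem_coe.2 (mem_image_of_mem sk hw.1)
  have h3 : ∑ s ∈ SS k, 2 ^ (s.count 5) ≤ (Wd k).card := by
    rw [card_eq_sum_card_fiberwise (f := sk) (t := SS k) (s := Wd k)]
    · exact sum_le_sum fun s hs => fiber_ge hs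
    · intro w hw
      exact mem_coe.2 (mem_image_of_mem sk (mem_coe.1 hw))
  have h3' : ∑ s ∈ SS k, (2 : ℝ) ^ (s.count 5) ≤ (Wd k).card := by exact_mod_cast h3
  have h4 : ∀ s ∈ SS k, (((s.count 5).choose (s.count 5 / 2) : ℕ) : ℝ) ≤
      1.036 ^ k + 5 / √k * 2 ^ (s.count 5) := by
    intro s _
    rcases Nat.lt_or_ge k (20 * s.count 5) with h5 | h5
    · refine (choose_le _).trans ?_
      have h6 : 2 ^ (s.count 5) / √(((s.count 5 : ℕ) : ℝ) + 1) ≤ 5 / √k * (2 : ℝ) ^ (s.count 5) := by
        rw [div_mul_eq_mul_div, div_le_div_iff₀ (by positivity) hsk]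
        have h7 : √(k : ℝ) ≤ 5 * √(((s.count 5 : ℕ) : ℝ) + 1) := by
          rw [show (5 : ℝ) = √25 from by
            rw [show (25 : ℝ) = 5 ^ 2 from by norm_num, Real.sqrt_sq (by norm_num)], ← Real.sqrt_mul (by norm_num)]
          apply Real.sqrt_le_sqrt
          have h8 : (k : ℝ) ≤ 20 * ((s.count 5 : ℕ) : ℝ) := by exact_mod_cast h5.le
          have h9 : (0 : ℝ) ≤ ((s.count 5 : ℕ) : ℝ) := Nat.cast_nonneg _
          linarith
        have h10 : (0 : ℝ) < 2 ^ (s.count 5) := by positivity
        nlinarith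
      have h11 : (0 : ℝ) ≤ 1.036 ^ k := by positivity
      linarith
    · have h6 : (((s.count 5).choose (s.count 5 / 2) : ℕ) : ℝ) ≤ 2 ^ (s.count 5) := by
        exact_mod_cast Nat.choose_le_two_pow _ _
      have h7 : (2 : ℝ) ^ (s.count 5) ≤ 1.036 ^ k := by
        calc (2 : ℝ) ^ (s.count 5) ≤ (1.036 ^ 20) ^ (s.count 5) :=
              pow_le_pow_left₀ (by norm_num) (by norm_num) _
          _ = 1.036 ^ (20 * s.count 5) := by rw [pow_mul]
          _ ≤ 1.036 ^ k := pow_le_pow_right₀ (by norm_num) h5
      have h8 : (0 : ℝ) ≤ 5 / √k * 2 ^ (s.count 5) := by positivity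
      linarith
  have h5 : (((Wd k).filter P).card : ℝ) ≤ 1.295 ^ k + 5 / √k * (Wd k).card := by
    calc (((Wd k).filter P).card : ℝ)
        ≤ ((∑ s ∈ SS k, (s.count 5).choose (s.count 5 / 2) : ℕ) : ℝ) := by exact_mod_cast h1
      _ = ∑ s ∈ SS k, (((s.count 5).choose (s.count 5 / 2) : ℕ) : ℝ) := by push_cast; rfl
      _ ≤ ∑ s ∈ SS k, (1.036 ^ k + 5 / √k * 2 ^ (s.count 5)) := sum_le_sum h4
      _ = (SS k).card * 1.036 ^ k + 5 / √k * ∑ s ∈ SS k, (2 : ℝ) ^ (s.count 5) := by
          rw [sum_add_distrib, sum_const, nsmul_eq_mul, mul_sum]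
      _ ≤ 1.25 ^ k * 1.036 ^ k + 5 / √k * (Wd k).card := by
          have := card_SS k
          gcongr
      _ = 1.295 ^ k + 5 / √k * (Wd k).card := by
          rw [← mul_pow]
          norm_num
  -- the first term is small
  have h6 := card_Wd_ge k h2
  have h7 : (1 : ℝ) + k * 0.019 ≤ (1.019) ^ k := by
    have := one_add_mul_le_pow (a := (0.019 : ℝ)) (by norm_num) k
    norm_num at this ⊢
    exact this
  have h9 : √(k : ℝ) * 1.295 ^ k ≤ 180 * (Wd k).card := by
    have h8 : √(k : ℝ) ≤ k := by
      rw [Real.sqrt_le_left (by positivity)]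
      have : (1 : ℝ) ≤ k := by exact_mod_cast hk
      nlinarith
    have h10 : √(k : ℝ) * 0.019 ≤ 1.019 ^ k := by nlinarith
    have h11 : (0 : ℝ) < 1.295 ^ k := by positivity
    have h12 : (1.019 : ℝ) ^ k * 1.295 ^ k ≤ 1.32 ^ k := by
      rw [← mul_pow]
      exact pow_le_pow_left₀ (by norm_num) (by norm_num) k
    nlinarith [mul_le_mul_of_nonneg_right h10 h11.le]
  rw [le_div_iff₀ hsk]
  have h10 := mul_le_mul_of_nonneg_right h5 hsk.le
  have h11 : (1.295 ^ k + 5 / √(k : ℝ) * (Wd k).card) * √(k : ℝ) =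
      √(k : ℝ) * 1.295 ^ k + 5 * (Wd k).card := by
    field_simp
  rw [h11] at h10
  have h12 : (0 : ℝ) ≤ (Wd k).card := Nat.cast_nonneg _
  linarith

/-- exchanging two letters at distance of half the length of the word changes the function by at least `c` -/
def Exch (c : ℝ) (F : List ℕ → ℝ) : Prop :=
  ∀ p1 p2 s : List ℕ, L23 p1 → L23 p2 → L23 s → s.length ≤ p1.length + p2.length + 2 →
    p1.length + p2.length + 2 + s.length ≤ 3 * (p2.length + 1) →
    F (p1 ++ 3 :: (p2 ++ 2 :: s)) + c ≤ F (p1 ++ 2 :: (p2 ++ 3 :: s))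

lemma grow_ph {c : ℝ} {F : List ℕ → ℝ} (hF : Exch c F) : Grow c fun z => F (ph z) := by
  intro p q hp hq hpe
  have e : ∀ x y : ℕ, ph (p ++ x :: y :: q) = ev p ++ x :: ((ev q ++ od p) ++ y :: (od q ++ re q)) := by
    intro x y
    rw [ph, ev_app _ _ hpe, od_app _ _ hpe, re_app _ _ hpe, ev, od, re]
    simp
  simp only [e]
  refine hF _ _ _ (fun x hx => hp x (mem_ev p x hx)) ?_ ?_ ?_ ?_
  · intro x hx
    rw [List.mem_append] at hx
    rcases hx with hx | hx
    · exact hq x (mem_ev q x hx)
    · exact hp x (mem_od p x hx)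
  · intro x hx
    rw [List.mem_append] at hx
    rcases hx with hx | hx
    · exact hq x (mem_od q x hx)
    · exact hq x (mem_re q x hx)
  · rw [List.length_append, List.length_append, len_ev, len_ev, len_od, len_od, len_re]
    omega
  · rw [List.length_append, List.length_append, len_ev, len_ev, len_od, len_od, len_re]
    obtain ⟨m, hm⟩ := hpe
    omega

/-- few words have a value in a half-open interval of length `c` -/
theorem ball_c {c : ℝ} (hc : 0 ≤ c) {F : List ℕ → ℝ} (hF : Exch c F) (k : ℕ) (hk : 1 ≤ k) (x : ℝ) :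
    (((Wd k).filter fun w => x ≤ F w ∧ F w < x + c).card : ℝ) ≤ 200 * (Wd k).card / √k := by
  classical
  have h1 : (Wd k).filter (fun w => x ≤ F w ∧ F w < x + c) =
      ((Wd k).filter fun z => x ≤ F (ph z) ∧ F (ph z) < x + c).image ph := by
    ext w
    rw [mem_filter, mem_image]
    constructor
    · rintro ⟨hw, h⟩
      rw [← ph_image, mem_image] at hw
      obtain ⟨z, hz, rfl⟩ := hw
      exact ⟨z, mem_filter.2 ⟨hz, h⟩, rfl⟩
    · rintro ⟨z, hz, rfl⟩
      rw [mem_filter] at hz
      refine ⟨?_, hz.2⟩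
      rw [← ph_image]
      exact mem_image_of_mem ph hz.1
  rw [h1, card_image_of_injective _ ph_inj]
  exact few' (fun z => x ≤ F (ph z) ∧ F (ph z) < x + c) (fun s hs => cube_le hc (grow_ph hF) hs x) k hk

/-- **few words have a value in an interval of length `L`** -/
theorem ball {c : ℝ} (hc : 0 < c) {F : List ℕ → ℝ} (hF : Exch c F) (k : ℕ) (hk : 1 ≤ k) (x L : ℝ) (hL : 0 ≤ L) :
    (((Wd k).filter fun w => x ≤ F w ∧ F w ≤ x + L).card : ℝ) ≤ (L / c + 1) * (200 * (Wd k).card / √k) := by
  classical
  set t := ⌊L / c⌋₊ with ht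
  have hsub : (Wd k).filter (fun w => x ≤ F w ∧ F w ≤ x + L) ⊆
      (range (t + 1)).biUnion fun i => (Wd k).filter fun w => x + i * c ≤ F w ∧ F w < x + i * c + c := by
    intro w hw
    rw [mem_filter] at hw
    obtain ⟨hw, h1, h2⟩ := hw
    rw [mem_biUnion]
    have h3 : 0 ≤ (F w - x) / c := div_nonneg (by linarith) hc.le
    refine ⟨⌊(F w - x) / c⌋₊, ?_, ?_⟩
    · rw [mem_range, Nat.lt_succ_iff, ht]
      exact Nat.floor_le_floor (by gcongr; linarith)
    · rw [mem_filter]
      have h4 := Nat.floor_le h3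
      have h5 := Nat.lt_floor_add_one ((F w - x) / c)
      rw [le_div_iff₀ hc] at h4
      rw [div_lt_iff₀ hc] at h5
      exact ⟨hw, by linarith, by linarith⟩
  calc (((Wd k).filter fun w => x ≤ F w ∧ F w ≤ x + L).card : ℝ)
      ≤ (((range (t + 1)).biUnion fun i => (Wd k).filter fun w => x + i * c ≤ F w ∧ F w < x + i * c + c).card : ℝ) := by
        exact_mod_cast card_le_card hsub
    _ ≤ ((∑ i ∈ range (t + 1), ((Wd k).filter fun w => x + i * c ≤ F w ∧ F w < x + i * c + c).card : ℕ) : ℝ) := by
        exact_mod_cast card_biUnion_le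
    _ = ∑ i ∈ range (t + 1), (((Wd k).filter fun w => x + i * c ≤ F w ∧ F w < x + i * c + c).card : ℝ) := by push_cast; rfl
    _ ≤ ∑ _i ∈ range (t + 1), (200 * (Wd k).card / √k : ℝ) := sum_le_sum fun i _ => ball_c hc.le hF k hk _
    _ = ((t : ℝ) + 1) * (200 * (Wd k).card / √k) := by
        rw [sum_const, card_range, nsmul_eq_mul]
        push_cast
        ring
    _ ≤ _ := by
        refine mul_le_mul_of_nonneg_right ?_ (by positivity)
        have := Nat.floor_le (div_nonneg hL hc.le)
        linarith

end Pool.Agent.L5helper80.MZ
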