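import Mathlib
import Pool.Agent.L5helper80.MZ.Ana

/-!
# Multiple zeta values with arbitrary letters: the tails of the series
-/

set_option autoImplicit false

namespace Pool.Agent.L5helper80.MZ

open Filter Topology
open Pool.Agent.H447R2.MZ (H H_nil H_cons H_cons_zero H_cons_succ H_nonneg H_mono Adm val tendsto_H H_le_val)

/-- the sum over the large variables; the first letter of the list belongs to the smallest of them -/
noncomputable def V : List ℕ → ℕ → ℕ → ℝ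
  | [], _, _ => 1
  | (l :: rp), a, N => ∑ m ∈ Finset.Ico a N, (((m + 1 : ℕ) : ℝ) ^ l)⁻¹ * V rp (m + 1) N

lemma V_nil (a N : ℕ) : V [] a N = 1 := by rw [V]

lemma V_cons (l : ℕ) (rp : List ℕ) (a N : ℕ) :
    V (l :: rp) a N = ∑ m ∈ Finset.Ico a N, (((m + 1 : ℕ) : ℝ) ^ l)⁻¹ * V rp (m + 1) N := by rw [V]

lemma V_nonneg : ∀ (rp : List ℕ) (a N : ℕ), 0 ≤ V rp a N
  | [], a, N => by rw [V_nil]; norm_num
  | (l :: rp), a, N => by
    rw [V_cons]
    exact Finset.sum_nonneg fun m _ => mul_nonneg (by positivity) (V_nonneg rp _ _)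

/-- the sum of `l - 1` over the letters -/
def La : List ℕ → ℕ
  | [] => 0
  | (l :: rp) => (l - 1) + La rp

/-- the product of the sums `La` of the nonempty tails -/
noncomputable def Pi' : List ℕ → ℝ
  | [] => 1
  | (l :: rp) => (La (l :: rp) : ℝ) * Pi' rp

/-- all letters are positive and the sums `La` of the nonempty tails are positive -/
def Gd : List ℕ → Prop
  | [] => True
  | (l :: rp) => 1 ≤ l ∧ 1 ≤ La (l :: rp) ∧ Gd rp

lemma Pi'_pos : ∀ rp : List ℕ, Gd rp → 0 < Pi' rp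
  | [], _ => by rw [Pi']; exact one_pos
  | (l :: rp), h => by
    rw [Pi']
    rw [Gd] at h
    exact mul_pos (by exact_mod_cast h.2.1) (Pi'_pos rp h.2.2)

/-- `t (x + 1) ^ (-(t + 1)) ≤ x ^ (-t) - (x + 1) ^ (-t)` -/
lemma tel_up (x t : ℕ) (hx : 1 ≤ x) :
    (t : ℝ) * ((((x + 1 : ℕ) : ℝ)) ^ (t + 1))⁻¹ ≤ ((x : ℝ) ^ t)⁻¹ - ((((x + 1 : ℕ) : ℝ)) ^ t)⁻¹ := by
  have hx0 : (0 : ℝ) < x := by exact_mod_cast hx
  push_cast
  have hb := one_add_mul_le_pow (a := (1 / x : ℝ)) (by have : (0:ℝ) ≤ 1 / x := by positivity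
                                                       linarith) t
  have h1 : (1 + 1 / (x : ℝ)) ^ t = ((x : ℝ) + 1) ^ t / x ^ t := by rw [← div_pow]; congr 1; field_simp
  rw [h1, le_div_iff₀ (by positivity)] at hb
  have h2 : (x : ℝ) ^ t * (x + 1 + t) ≤ ((x : ℝ) + 1) ^ t * (x + 1) := by
    have h3 := mul_le_mul_of_nonneg_right hb (by positivity : (0 : ℝ) ≤ (x : ℝ) + 1)
    refine le_trans ?_ h3
    have h4 : (1 + (t : ℝ) * (1 / x)) * x ^ t * (x + 1) = x ^ t * (x + 1 + t) + x ^ t * (t / x) := by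
      field_simp
      ring
    rw [h4]
    have h5 : (0 : ℝ) ≤ (x : ℝ) ^ t * (t / x) := by positivity
    linarith
  rw [← one_div, ← one_div, ← one_div, div_sub_div _ _ (by positivity) (by positivity), mul_one_div,
    div_le_div_iff₀ (by positivity) (by positivity)]
  have h6 : (0 : ℝ) < ((x : ℝ) + 1) ^ t := by positivity
  have h7 := mul_le_mul_of_nonneg_left h2 h6.le
  rw [pow_succ]
  nlinarith

/-- `x ^ (-t) - (x + 1) ^ (-t) ≤ t x ^ (-(t + 1))` -/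
lemma tel_down (x t : ℕ) (hx : 1 ≤ x) :
    ((x : ℝ) ^ t)⁻¹ - ((((x + 1 : ℕ) : ℝ)) ^ t)⁻¹ ≤ (t : ℝ) * ((x : ℝ) ^ (t + 1))⁻¹ := by
  have hx0 : (0 : ℝ) < x := by exact_mod_cast hx
  push_cast
  have hb := one_add_mul_le_pow (a := (-(1 / ((x : ℝ) + 1)))) (by
    have : 1 / ((x : ℝ) + 1) ≤ 1 := by rw [div_le_one (by positivity)]; linarith
    linarith) t
  have h1 : (1 + -(1 / ((x : ℝ) + 1))) ^ t = (x : ℝ) ^ t / (x + 1) ^ t := by rw [← div_pow]; congr 1; field_simp; ring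
  rw [h1, le_div_iff₀ (by positivity)] at hb
  -- (1 - t / (x + 1)) (x + 1) ^ t ≤ x ^ t
  have h2 : (1 - (t : ℝ) / x) * ((x : ℝ) + 1) ^ t ≤ x ^ t := by
    refine le_trans ?_ hb
    refine mul_le_mul_of_nonneg_right ?_ (by positivity)
    have : (t : ℝ) * (1 / ((x : ℝ) + 1)) ≤ t / x := by
      rw [mul_one_div]
      exact div_le_div_of_nonneg_left (Nat.cast_nonneg _) hx0 (by linarith)
    linarith
  have h3 : ((x : ℝ) ^ t)⁻¹ - (((x : ℝ) + 1) ^ t)⁻¹ = (((x : ℝ) + 1) ^ t - x ^ t) / (x ^ t * (x + 1) ^ t) := by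
    field_simp
  rw [h3, div_le_iff₀ (by positivity)]
  have h4 : (t : ℝ) * ((x : ℝ) ^ (t + 1))⁻¹ * (x ^ t * (x + 1) ^ t) = (t / x) * (x + 1) ^ t := by
    rw [pow_succ]
    field_simp
  rw [h4]
  nlinarith

lemma sum_up (t a : ℕ) (ha : 1 ≤ a) (N : ℕ) :
    ∑ m ∈ Finset.Ico a N, (t : ℝ) * ((((m + 1 : ℕ) : ℝ)) ^ (t + 1))⁻¹ ≤ ((a : ℝ) ^ t)⁻¹ := by
  rcases Nat.lt_or_ge N a with h | h
  · rw [Finset.Ico_eq_empty_of_le h.le, Finset.sum_empty]
    positivity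
  have key : ∀ N, a ≤ N → ∑ m ∈ Finset.Ico a N, (t : ℝ) * ((((m + 1 : ℕ) : ℝ)) ^ (t + 1))⁻¹ ≤
      ((a : ℝ) ^ t)⁻¹ - ((N : ℝ) ^ t)⁻¹ := by
    intro N hN
    induction N, hN using Nat.le_induction with
    | base => simp
    | succ N hN ih =>
      rw [Finset.sum_Ico_succ_top hN]
      have := tel_up N t (ha.trans hN)
      linarith
  have h1 := key N h
  have h2 : (0 : ℝ) ≤ ((N : ℝ) ^ t)⁻¹ := by positivity
  linarith

lemma sum_down (t a : ℕ) (ha : 1 ≤ a) (K : ℕ) (hK : a ≤ K) :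
    ((a : ℝ) ^ t)⁻¹ - ((K : ℝ) ^ t)⁻¹ ≤ ∑ x ∈ Finset.Ico a K, (t : ℝ) * ((x : ℝ) ^ (t + 1))⁻¹ := by
  induction K, hK using Nat.le_induction with
  | base => simp
  | succ N hN ih =>
    rw [Finset.sum_Ico_succ_top hN]
    have := tel_down N t (ha.trans hN)
    linarith

/-- the upper bound of the tails -/
lemma V_up : ∀ (rp : List ℕ), Gd rp → ∀ a N, 1 ≤ a → V rp a N * Pi' rp ≤ ((a : ℝ) ^ La rp)⁻¹
  | [], _, a, N, _ => by rw [V_nil, Pi', La]; simp
  | (l :: rp), h, a, N, ha => by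
    rw [Gd] at h
    obtain ⟨hl, ht, hg⟩ := h
    obtain ⟨b, rfl⟩ : ∃ b, l = b + 1 := ⟨l - 1, by omega⟩
    have hLa : La ((b + 1) :: rp) = b + La rp := by rw [La, Nat.add_sub_cancel]
    rw [V_cons, Pi', Finset.sum_mul]
    refine le_trans (Finset.sum_le_sum fun m _ => ?_) (sum_up (La ((b + 1) :: rp)) a ha N)
    have h1 := V_up rp hg (m + 1) N (by omega)
    have e : (((m + 1 : ℕ) : ℝ) ^ (La ((b + 1) :: rp) + 1))⁻¹ =
        (((m + 1 : ℕ) : ℝ) ^ (b + 1))⁻¹ * (((m + 1 : ℕ) : ℝ) ^ La rp)⁻¹ := by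
      rw [← mul_inv, ← pow_add, hLa]
      congr 2
      ring
    rw [e]
    calc (((m + 1 : ℕ) : ℝ) ^ (b + 1))⁻¹ * V rp (m + 1) N * ((La ((b + 1) :: rp) : ℝ) * Pi' rp)
        = (La ((b + 1) :: rp) : ℝ) * ((((m + 1 : ℕ) : ℝ) ^ (b + 1))⁻¹ * (V rp (m + 1) N * Pi' rp)) := by ring
      _ ≤ _ := mul_le_mul_of_nonneg_left (mul_le_mul_of_nonneg_left h1 (by positivity)) (Nat.cast_nonneg _)

/-- the lower bound of the tails -/
lemma V_down : ∀ (rp : List ℕ), Gd rp → ∀ a, ∀ ε : ℝ, 0 < ε →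
    ∀ᶠ N in atTop, (((a + rp.length : ℕ) : ℝ) ^ La rp)⁻¹ - ε ≤ V rp a N * Pi' rp
  | [], _, a, ε, hε => by
    refine Eventually.of_forall fun N => ?_
    rw [V_nil, Pi', La]
    simp
    exact hε.le
  | (l :: rp), h, a, ε, hε => by
    rw [Gd] at h
    obtain ⟨hl, ht, hg⟩ := h
    obtain ⟨b, rfl⟩ : ∃ b, l = b + 1 := ⟨l - 1, by omega⟩
    have hLa : La ((b + 1) :: rp) = b + La rp := by rw [La, Nat.add_sub_cancel]
    set t := La ((b + 1) :: rp) with ht'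
    set j := rp.length with hj
    -- the cut off
    have hlim : Tendsto (fun K : ℕ => (((K : ℕ) : ℝ) ^ t)⁻¹) atTop (𝓝 0) := by
      refine tendsto_inv_atTop_zero.comp ?_
      exact (tendsto_pow_atTop (by omega)).comp tendsto_natCast_atTop_atTop
    obtain ⟨K, hK1, hK2⟩ : ∃ K : ℕ, a + 1 + j ≤ K ∧ (((K : ℕ) : ℝ) ^ t)⁻¹ < ε / 2 := by
      obtain ⟨K, h1, h2⟩ := ((eventually_ge_atTop (a + 1 + j)).and (hlim.eventually (gt_mem_nhds (half_pos hε)))).exists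
      exact ⟨K, h1, h2⟩
    have hK0 : (0 : ℝ) < K := by exact_mod_cast (by omega : 0 < K)
    have ht0 : (0 : ℝ) < t := by exact_mod_cast (by omega : 0 < t)
    set ε' := ε / (2 * K * t) with hε'
    have hε'0 : 0 < ε' := by positivity
    have hev : ∀ᶠ N in atTop, ∀ m ∈ Finset.range K,
        (((m + 1 + j : ℕ) : ℝ) ^ La rp)⁻¹ - ε' ≤ V rp (m + 1) N * Pi' rp := by
      rw [Finset.eventually_all]
      intro m _
      exact V_down rp hg (m + 1) ε' hε'0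
    filter_upwards [hev, eventually_ge_atTop K] with N hN hNK
    rw [V_cons, Pi', List.length_cons, ← hj, ← ht', Finset.sum_mul]
    have hsub : Finset.Ico a (K - 1 - j) ⊆ Finset.Ico a N := Finset.Ico_subset_Ico_right (by omega)
    have hPi := Pi'_pos rp hg
    calc (((a + (j + 1) : ℕ) : ℝ) ^ t)⁻¹ - ε
        ≤ ((((a + 1 + j : ℕ) : ℝ) ^ t)⁻¹ - (((K : ℕ) : ℝ) ^ t)⁻¹) - ε / 2 := by
          rw [show a + (j + 1) = a + 1 + j by ring]
          linarith
      _ ≤ ∑ x ∈ Finset.Ico (a + 1 + j) K, (t : ℝ) * ((x : ℝ) ^ (t + 1))⁻¹ - ε / 2 := by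
          have := sum_down t (a + 1 + j) (by omega) K hK1
          linarith
      _ = ∑ m ∈ Finset.Ico a (K - 1 - j), (t : ℝ) * (((m + 1 + j : ℕ) : ℝ) ^ (t + 1))⁻¹ - ε / 2 := by
          congr 1
          have e1 := Finset.sum_Ico_add' (fun x : ℕ => (t : ℝ) * ((x : ℝ) ^ (t + 1))⁻¹) a (K - 1 - j) (1 + j)
          rw [show a + (1 + j) = a + 1 + j by ring, show K - 1 - j + (1 + j) = K by omega] at e1
          rw [← e1]
          exact Finset.sum_congr rfl fun m _ => by rw [add_assoc]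
      _ ≤ ∑ m ∈ Finset.Ico a (K - 1 - j), (t : ℝ) * ((((m + 1 : ℕ) : ℝ) ^ (b + 1))⁻¹ * (((m + 1 + j : ℕ) : ℝ) ^ La rp)⁻¹) -
            ε / 2 := by
          refine sub_le_sub_right (Finset.sum_le_sum fun m _ => mul_le_mul_of_nonneg_left ?_ ht0.le) _
          rw [← mul_inv]
          refine inv_anti₀ (by positivity) ?_
          have e2 : (((m + 1 + j : ℕ) : ℝ)) ^ (t + 1) = (((m + 1 + j : ℕ) : ℝ)) ^ (b + 1) * (((m + 1 + j : ℕ) : ℝ)) ^ La rp := by
            rw [← pow_add, hLa]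
            congr 1
            ring
          rw [e2]
          refine mul_le_mul_of_nonneg_right ?_ (by positivity)
          exact pow_le_pow_left₀ (by positivity) (by exact_mod_cast (by omega : m + 1 ≤ m + 1 + j)) _
      _ ≤ ∑ m ∈ Finset.Ico a (K - 1 - j), (t : ℝ) * ((((m + 1 : ℕ) : ℝ) ^ (b + 1))⁻¹ * (V rp (m + 1) N * Pi' rp)) := by
          have h1 : ∑ m ∈ Finset.Ico a (K - 1 - j), (t : ℝ) * ((((m + 1 : ℕ) : ℝ) ^ (b + 1))⁻¹ * (((m + 1 + j : ℕ) : ℝ) ^ La rp)⁻¹) -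
              ∑ m ∈ Finset.Ico a (K - 1 - j), (t : ℝ) * ε' ≤
              ∑ m ∈ Finset.Ico a (K - 1 - j), (t : ℝ) * ((((m + 1 : ℕ) : ℝ) ^ (b + 1))⁻¹ * (V rp (m + 1) N * Pi' rp)) := by
            rw [← Finset.sum_sub_distrib]
            refine Finset.sum_le_sum fun m hm => ?_
            rw [← mul_sub]
            refine mul_le_mul_of_nonneg_left ?_ ht0.le
            have h2 := hN m (Finset.mem_range.2 (by rw [Finset.mem_Ico] at hm; omega))
            have h3 : (((m + 1 : ℕ) : ℝ) ^ (b + 1))⁻¹ ≤ 1 := by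
              refine inv_le_one_of_one_le₀ (one_le_pow₀ ?_)
              exact_mod_cast (by omega : 1 ≤ m + 1)
            have h4 : (0 : ℝ) < (((m + 1 : ℕ) : ℝ) ^ (b + 1))⁻¹ := by positivity
            have h5 := mul_le_mul_of_nonneg_left h2 h4.le
            have h6 := mul_le_mul_of_nonneg_right h3 hε'0.le
            linarith
          have h7 : ∑ m ∈ Finset.Ico a (K - 1 - j), (t : ℝ) * ε' ≤ ε / 2 := by
            rw [Finset.sum_const, Nat.card_Ico, nsmul_eq_mul]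
            have h8 : ((K - 1 - j - a : ℕ) : ℝ) ≤ K := by exact_mod_cast (by omega : K - 1 - j - a ≤ K)
            calc ((K - 1 - j - a : ℕ) : ℝ) * ((t : ℝ) * ε') ≤ K * ((t : ℝ) * ε') :=
                  mul_le_mul_of_nonneg_right h8 (by positivity)
              _ = ε / 2 := by rw [hε']; field_simp
          linarith
      _ ≤ ∑ m ∈ Finset.Ico a N, (t : ℝ) * ((((m + 1 : ℕ) : ℝ) ^ (b + 1))⁻¹ * (V rp (m + 1) N * Pi' rp)) :=
          Finset.sum_le_sum_of_subset_of_nonneg hsub fun m _ _ =>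
            mul_nonneg ht0.le (mul_nonneg (by positivity) (mul_nonneg (V_nonneg _ _ _) hPi.le))
      _ = ∑ i ∈ Finset.Ico a N, (((i + 1 : ℕ) : ℝ) ^ (b + 1))⁻¹ * V rp (i + 1) N * ((t : ℝ) * Pi' rp) :=
          Finset.sum_congr rfl fun m _ => by ring

/-- the nested sum in terms of the tails -/
lemma U_rep : ∀ (rp : List ℕ) (l : ℕ) (f : ℕ → ℝ) (N : ℕ),
    U (rp.reverse ++ [l]) f N = ∑ m ∈ Finset.range N, V rp (m + 1) N * ((((m + 1 : ℕ) : ℝ) ^ l)⁻¹ * f m)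
  | [], l, f, N => by
    rw [List.reverse_nil, List.nil_append, U_cons]
    exact Finset.sum_congr rfl fun m _ => by rw [V_nil, U_nil, one_mul]
  | (l' :: rp), l, f, N => by
    rw [U_app, List.reverse_cons, U_rep rp l' (U [l] f) N]
    have h1 : ∀ m' ∈ Finset.range N, V rp (m' + 1) N * ((((m' + 1 : ℕ) : ℝ) ^ l')⁻¹ * U [l] f m') =
        ∑ m ∈ Finset.range m', V rp (m' + 1) N * (((m' + 1 : ℕ) : ℝ) ^ l')⁻¹ * ((((m + 1 : ℕ) : ℝ) ^ l)⁻¹ * f m) := by
      intro m' _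
      rw [U_cons, Finset.mul_sum, Finset.mul_sum]
      exact Finset.sum_congr rfl fun m _ => by rw [U_nil]; ring
    rw [Finset.sum_congr rfl h1]
    rw [Finset.sum_comm' (t' := Finset.range N) (s' := fun m => Finset.Ico (m + 1) N) (by
      intro x y
      simp only [Finset.mem_range, Finset.mem_Ico]
      omega)]
    refine Finset.sum_congr rfl fun m _ => ?_
    rw [V_cons, Finset.sum_mul]
    exact Finset.sum_congr rfl fun m' _ => by ring

end Pool.Agent.L5helper80.MZ
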