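import Mathlib
import Pool.Agent.L5helper80.MZ.Tail

/-!
# Moving a unit to the next smaller variable, for almost all indices
-/

set_option autoImplicit false

namespace Pool.Agent.L5helper80.MZ

open Filter Topology
open Pool.Agent.H447R2.MZ (H H_nil H_cons H_cons_zero H_cons_succ H_nonneg H_mono Adm val tendsto_H H_le_val)

/-- the product `∏ (1 + x / n)` -/
noncomputable def PQ (x : ℝ) (N : ℕ) : ℝ := ∏ n ∈ Finset.range N, (1 + x / ((n + 1 : ℕ) : ℝ))

lemma PQ_zero (x : ℝ) : PQ x 0 = 1 := by simp [PQ]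

lemma PQ_succ (x : ℝ) (N : ℕ) : PQ x (N + 1) = PQ x N + PQ x N * (x / ((N + 1 : ℕ) : ℝ)) := by
  rw [PQ, Finset.prod_range_succ, ← PQ]
  ring

lemma PQ_pos {x : ℝ} (hx : 0 ≤ x) (N : ℕ) : 0 < PQ x N := by
  rw [PQ]
  exact Finset.prod_pos fun n _ => by positivity

lemma one_le_PQ {x : ℝ} (hx : 0 ≤ x) (N : ℕ) : 1 ≤ PQ x N := by
  induction N with
  | zero => rw [PQ_zero]
  | succ N ih =>
    rw [PQ_succ]
    have := mul_nonneg (PQ_pos hx N).le (by positivity : (0 : ℝ) ≤ x / ((N + 1 : ℕ) : ℝ))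
    linarith

lemma PQ_eq (x N : ℕ) : PQ (x : ℝ) N * ((N.factorial : ℕ) : ℝ) * ((x.factorial : ℕ) : ℝ) = (((N + x).factorial : ℕ) : ℝ) := by
  induction N with
  | zero => rw [PQ_zero]; simp
  | succ N ih =>
    rw [PQ_succ, show N + 1 + x = (N + x) + 1 by ring, Nat.factorial_succ (N + x), Nat.factorial_succ N]
    push_cast
    rw [← ih]
    field_simp
    ring

lemma PQ_le (x N : ℕ) : PQ (x : ℝ) N * ((x.factorial : ℕ) : ℝ) ≤ ((N + x : ℕ) : ℝ) ^ x := by
  have h1 := PQ_eq x N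
  have h2 : (N.factorial : ℝ) * ((N + x : ℕ) : ℝ) ^ x ≥ (((N + x).factorial : ℕ) : ℝ) := by
    have h3 := Nat.factorial_mul_ascFactorial N x
    have h4 := Nat.ascFactorial_le_pow_add N x
    have h5 : (N + x).factorial ≤ N.factorial * (N + x) ^ x := by
      rw [← h3]
      exact Nat.mul_le_mul_left _ h4
    exact_mod_cast h5
  have hN : (0 : ℝ) < (N.factorial : ℕ) := by exact_mod_cast N.factorial_pos
  refine le_of_mul_le_mul_left ?_ hN
  linarith

/-- `∏ t ^ (l_t - 1)`, `t` the place of the letter from below -/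
noncomputable def D1 : List ℕ → ℝ
  | [] => 1
  | (a :: s) => ((s.length + 1 : ℕ) : ℝ) ^ (a - 1) * D1 s

lemma D1_pos : ∀ s, 0 < D1 s
  | [] => by rw [D1]; exact one_pos
  | (a :: s) => by rw [D1]; exact mul_pos (by positivity) (D1_pos s)

lemma D_eq1 : ∀ s : List ℕ, (∀ a ∈ s, 1 ≤ a) → D s = D1 s * ((s.length.factorial : ℕ) : ℝ)
  | [], _ => by simp [D, D1]
  | (a :: s), h => by
    have h2 : 1 ≤ a := h a (by simp)
    rw [D, D1, D_eq1 s fun x hx => h x (by simp [hx]), List.length_cons, Nat.factorial_succ]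
    obtain ⟨b, rfl⟩ : ∃ b, a = b + 1 := ⟨a - 1, by omega⟩
    rw [Nat.add_sub_cancel, pow_add]
    push_cast
    ring

lemma H_up1 {x : ℝ} (hx : 0 ≤ x) : ∀ (s : List ℕ), (∀ a ∈ s, 1 ≤ a) → ∀ N, H s N * D1 s * x ^ s.length ≤ PQ x N := by
  intro s
  induction s with
  | nil =>
    intro _ N
    rw [H_nil, D1, List.length_nil, pow_zero]
    simpa using one_le_PQ hx N
  | cons a s ih =>
    intro h N
    have h2 : 1 ≤ a := h a (by simp)
    have ihs := ih fun y hy => h y (by simp [hy])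
    induction N with
    | zero => rw [H_cons_zero, PQ_zero]; simp
    | succ N ihN =>
      rw [H_cons_succ, PQ_succ]
      have h3 : (((N + 1 : ℕ) : ℝ) ^ a)⁻¹ * H s N * D1 (a :: s) * x ^ (a :: s).length ≤
          PQ x N * (x / ((N + 1 : ℕ) : ℝ)) := by
        rcases Nat.lt_or_ge N s.length with h4 | h4
        · rw [H_zero s N h4]
          have := mul_nonneg (PQ_pos hx N).le (by positivity : (0 : ℝ) ≤ x / ((N + 1 : ℕ) : ℝ))
          simpa using this
        · obtain ⟨b, rfl⟩ : ∃ b, a = b + 1 := ⟨a - 1, by omega⟩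
          rw [D1, List.length_cons, Nat.add_sub_cancel, pow_succ x]
          have h5 : (((N + 1 : ℕ) : ℝ) ^ (b + 1))⁻¹ * ((s.length + 1 : ℕ) : ℝ) ^ b ≤ 1 / ((N + 1 : ℕ) : ℝ) := by
            rw [pow_add, mul_inv, pow_one, ← one_div, ← one_div, mul_right_comm]
            refine mul_le_of_le_one_left (by positivity) ?_
            rw [one_div, inv_mul_le_iff₀ (by positivity), mul_one]
            exact pow_le_pow_left₀ (by positivity) (by exact_mod_cast (by omega : s.length + 1 ≤ N + 1)) _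
          calc (((N + 1 : ℕ) : ℝ) ^ (b + 1))⁻¹ * H s N * (((s.length + 1 : ℕ) : ℝ) ^ b * D1 s) * (x ^ s.length * x)
              = ((((N + 1 : ℕ) : ℝ) ^ (b + 1))⁻¹ * ((s.length + 1 : ℕ) : ℝ) ^ b) * x * (H s N * D1 s * x ^ s.length) := by ring
            _ ≤ (1 / ((N + 1 : ℕ) : ℝ)) * x * PQ x N := by
                refine mul_le_mul (mul_le_mul_of_nonneg_right h5 hx) (ihs N) ?_ (by positivity)
                exact mul_nonneg (mul_nonneg (H_nonneg s N) (D1_pos s).le) (by positivity)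
            _ = PQ x N * (x / ((N + 1 : ℕ) : ℝ)) := by ring
      calc (H (a :: s) N + (((N + 1 : ℕ) : ℝ) ^ a)⁻¹ * H s N) * D1 (a :: s) * x ^ (a :: s).length
          = H (a :: s) N * D1 (a :: s) * x ^ (a :: s).length +
            (((N + 1 : ℕ) : ℝ) ^ a)⁻¹ * H s N * D1 (a :: s) * x ^ (a :: s).length := by ring
        _ ≤ _ := add_le_add ihN h3

/-- the growth of the lower part -/
lemma H_grow (s : List ℕ) (hs : ∀ a ∈ s, 1 ≤ a) (x : ℕ) (hx : 1 ≤ x) (N : ℕ) :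
    H s N * D s ≤ (((s.length.factorial : ℕ) : ℝ) / (x : ℝ) ^ s.length) * (((N + x : ℕ) : ℝ) ^ x / ((x.factorial : ℕ) : ℝ)) := by
  have hx0 : (0 : ℝ) < x := by exact_mod_cast hx
  have h1 := H_up1 (x := (x : ℝ)) hx0.le s hs N
  have h2 := PQ_le x N
  have hxf : (0 : ℝ) < (x.factorial : ℕ) := by exact_mod_cast x.factorial_pos
  rw [D_eq1 s hs, div_mul_div_comm, le_div_iff₀ (by positivity)]
  calc H s N * (D1 s * ((s.length.factorial : ℕ) : ℝ)) * ((x : ℝ) ^ s.length * ((x.factorial : ℕ) : ℝ))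
      = (H s N * D1 s * (x : ℝ) ^ s.length) * ((x.factorial : ℕ) : ℝ) * ((s.length.factorial : ℕ) : ℝ) := by ring
    _ ≤ PQ x N * ((x.factorial : ℕ) : ℝ) * ((s.length.factorial : ℕ) : ℝ) := by gcongr
    _ ≤ ((N + x : ℕ) : ℝ) ^ x * ((s.length.factorial : ℕ) : ℝ) := by gcongr
    _ = _ := by ring

/-- the lower bound of the value -/
lemma val_low (rp : List ℕ) (l : ℕ) (s : List ℕ) (hg : Gd (l :: rp)) (ha : Adm (rp.reverse ++ l :: s)) :
    (((rp.length + 1 + s.length : ℕ) : ℝ) ^ La (l :: rp))⁻¹ ≤ val (rp.reverse ++ l :: s) * (D s * Pi' (l :: rp)) := by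
  have hD := D_pos s
  have hP := Pi'_pos _ hg
  refine le_of_forall_pos_le_add fun ε hε => ?_
  have h1 := V_down (l :: rp) hg s.length ε hε
  obtain ⟨N, h2⟩ := h1.exists
  have h3 : V (l :: rp) s.length N ≤ H (rp.reverse ++ l :: s) N * D s := by
    have e1 : H (rp.reverse ++ l :: s) N = U (rp.reverse ++ [l]) (H s) N := by
      rw [← H_app, List.append_assoc, List.singleton_append]
    rw [e1, U_rep, Finset.sum_mul, V_cons]
    calc ∑ m ∈ Finset.Ico s.length N, (((m + 1 : ℕ) : ℝ) ^ l)⁻¹ * V rp (m + 1) N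
        ≤ ∑ m ∈ Finset.Ico s.length N, V rp (m + 1) N * ((((m + 1 : ℕ) : ℝ) ^ l)⁻¹ * H s m) * D s := by
          refine Finset.sum_le_sum fun m hm => ?_
          rw [Finset.mem_Ico] at hm
          have h4 := H_ge_D s m hm.1
          have h5 : 0 ≤ (((m + 1 : ℕ) : ℝ) ^ l)⁻¹ * V rp (m + 1) N := mul_nonneg (by positivity) (V_nonneg _ _ _)
          calc (((m + 1 : ℕ) : ℝ) ^ l)⁻¹ * V rp (m + 1) N = (((m + 1 : ℕ) : ℝ) ^ l)⁻¹ * V rp (m + 1) N * 1 := (mul_one _).symm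
            _ ≤ (((m + 1 : ℕ) : ℝ) ^ l)⁻¹ * V rp (m + 1) N * (H s m * D s) := mul_le_mul_of_nonneg_left h4 h5
            _ = _ := by ring
      _ ≤ ∑ m ∈ Finset.range N, V rp (m + 1) N * ((((m + 1 : ℕ) : ℝ) ^ l)⁻¹ * H s m) * D s := by
          refine Finset.sum_le_sum_of_subset_of_nonneg (fun m hm => ?_) fun m _ _ => ?_
          · rw [Finset.mem_Ico] at hm
            exact Finset.mem_range.2 hm.2
          · exact mul_nonneg (mul_nonneg (V_nonneg _ _ _) (mul_nonneg (by positivity) (H_nonneg _ _))) hD.le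
  have h4 := H_le_val _ ha N
  have h5 : V (l :: rp) s.length N * Pi' (l :: rp) ≤ val (rp.reverse ++ l :: s) * (D s * Pi' (l :: rp)) := by
    rw [← mul_assoc]
    refine mul_le_mul_of_nonneg_right (h3.trans (mul_le_mul_of_nonneg_right h4 hD.le)) hP.le
  have h6 : ((((s.length + (l :: rp).length : ℕ)) : ℝ) ^ La (l :: rp))⁻¹ =
      (((rp.length + 1 + s.length : ℕ) : ℝ) ^ La (l :: rp))⁻¹ := by
    rw [List.length_cons]
    congr 3
    ring
  rw [h6] at h2
  linarith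

/-- the part of the series where the last variable is large -/
lemma far1 (rp : List ℕ) (l : ℕ) (s : List ℕ) (hg : Gd (l :: rp)) (hs : ∀ a ∈ s, 1 ≤ a)
    (ha : Adm (rp.reverse ++ l :: s)) (k R x : ℕ) (hx : 1 ≤ x) (hR : 1 ≤ R) (hkx : k ≤ R * x) (ht : 2 * x ≤ La (l :: rp))
    (htk : La (l :: rp) ≤ k) (hn : rp.length + 1 + s.length ≤ k) (N : ℕ) :
    U (rp.reverse ++ [l]) (fun n => if (32 * R) ^ R * k ≤ n then H s n else 0) N ≤ 1 / 2 * val (rp.reverse ++ l :: s) := by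
  set M := (32 * R) ^ R * k with hM
  set t := La (l :: rp) with ht'
  set q := s.length with hq
  set n := rp.length + 1 + q with hn'
  have hk1 : 1 ≤ k := by omega
  have hg' := hg
  rw [Gd] at hg'
  obtain ⟨hl, ht1, hgr⟩ := hg'
  rw [← ht'] at ht1
  have hDs := D_pos s
  have hPr := Pi'_pos rp hgr
  have hPl := Pi'_pos _ hg
  have hRR : 1 ≤ (32 * R) ^ R := Nat.one_le_pow _ _ (by omega)
  have hkM : k ≤ M := by
    rw [hM]
    exact Nat.le_mul_of_pos_left k (by omega)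
  have hM1 : 1 ≤ M := hk1.trans hkM
  have hM0 : (0 : ℝ) < M := by exact_mod_cast hM1
  have hx0 : (0 : ℝ) < x := by exact_mod_cast hx
  have hk0 : (0 : ℝ) < k := by exact_mod_cast hk1
  have hn0 : (0 : ℝ) < n := by exact_mod_cast (by omega : 0 < n)
  have hxf : (0 : ℝ) < (x.factorial : ℕ) := by exact_mod_cast x.factorial_pos
  have hLa : La rp + l = t + 1 := by rw [ht', La]; omega
  obtain ⟨t', ht''⟩ : ∃ t', t = x + t' := ⟨t - x, by omega⟩
  set A : ℝ := ((q.factorial : ℕ) : ℝ) / (x : ℝ) ^ q * (1 / ((x.factorial : ℕ) : ℝ)) with hA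
  have hA0 : 0 ≤ A := by positivity
  -- the upper bound
  have hup : U (rp.reverse ++ [l]) (fun n => if M ≤ n then H s n else 0) N * (D s * Pi' rp) ≤
      A * 2 ^ x * ((M : ℝ) ^ t')⁻¹ := by
    rw [U_rep, Finset.sum_mul]
    have h1 : ∀ m ∈ Finset.range N, V rp (m + 1) N * ((((m + 1 : ℕ) : ℝ) ^ l)⁻¹ * (if M ≤ m then H s m else 0)) *
        (D s * Pi' rp) = if m ∈ Finset.Ico M N then V rp (m + 1) N * ((((m + 1 : ℕ) : ℝ) ^ l)⁻¹ * H s m) * (D s * Pi' rp)
          else 0 := by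
      intro m hm
      rw [Finset.mem_range] at hm
      by_cases h2 : M ≤ m
      · rw [if_pos h2, if_pos (Finset.mem_Ico.2 ⟨h2, hm⟩)]
      · rw [if_neg h2, if_neg (by rw [Finset.mem_Ico]; omega), mul_zero, mul_zero, zero_mul]
    rw [Finset.sum_congr rfl h1, ← Finset.sum_filter]
    have h3 : (Finset.range N).filter (fun m => m ∈ Finset.Ico M N) = Finset.Ico M N := by
      ext m
      simp only [Finset.mem_filter, Finset.mem_range, Finset.mem_Ico]
      omega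
    rw [h3]
    have h4 : ∀ m ∈ Finset.Ico M N, V rp (m + 1) N * ((((m + 1 : ℕ) : ℝ) ^ l)⁻¹ * H s m) * (D s * Pi' rp) ≤
        A * 2 ^ x * ((t' : ℝ) * (((m + 1 : ℕ) : ℝ) ^ (t' + 1))⁻¹) := by
      intro m hm
      rw [Finset.mem_Ico] at hm
      have h5 := V_up rp hgr (m + 1) N (by omega)
      have h6 := H_grow s hs x hx m
      rw [← hq] at h6
      have h7 : ((m + x : ℕ) : ℝ) ^ x ≤ 2 ^ x * ((m + 1 : ℕ) : ℝ) ^ x := by
        rw [← mul_pow]
        refine pow_le_pow_left₀ (by positivity) ?_ _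
        exact_mod_cast (by omega : m + x ≤ 2 * (m + 1))
      have h8 : H s m * D s ≤ A * 2 ^ x * ((m + 1 : ℕ) : ℝ) ^ x := by
        refine h6.trans ?_
        calc (((q.factorial : ℕ) : ℝ) / (x : ℝ) ^ q) * (((m + x : ℕ) : ℝ) ^ x / ((x.factorial : ℕ) : ℝ))
            = A * ((m + x : ℕ) : ℝ) ^ x := by rw [hA]; ring
          _ ≤ A * (2 ^ x * ((m + 1 : ℕ) : ℝ) ^ x) := mul_le_mul_of_nonneg_left h7 hA0
          _ = _ := by ring
      have hV := V_nonneg rp (m + 1) N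
      have h9 : (0 : ℝ) < ((m + 1 : ℕ) : ℝ) := by positivity
      have h10 : (1 : ℝ) ≤ t' := by exact_mod_cast (by omega : 1 ≤ t')
      calc V rp (m + 1) N * ((((m + 1 : ℕ) : ℝ) ^ l)⁻¹ * H s m) * (D s * Pi' rp)
          = (V rp (m + 1) N * Pi' rp) * ((((m + 1 : ℕ) : ℝ) ^ l)⁻¹ * (H s m * D s)) := by ring
        _ ≤ (((m + 1 : ℕ) : ℝ) ^ La rp)⁻¹ * ((((m + 1 : ℕ) : ℝ) ^ l)⁻¹ * (A * 2 ^ x * ((m + 1 : ℕ) : ℝ) ^ x)) := by
            refine mul_le_mul h5 (mul_le_mul_of_nonneg_left h8 (by positivity)) ?_ (by positivity)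
            exact mul_nonneg (by positivity) (mul_nonneg (H_nonneg _ _) hDs.le)
        _ = A * 2 ^ x * (((m + 1 : ℕ) : ℝ) ^ (t' + 1))⁻¹ := by
            have e : ((m + 1 : ℕ) : ℝ) ^ La rp * ((m + 1 : ℕ) : ℝ) ^ l = ((m + 1 : ℕ) : ℝ) ^ x * ((m + 1 : ℕ) : ℝ) ^ (t' + 1) := by
              rw [← pow_add, ← pow_add, hLa, ht'']
              congr 1
            have e2 : (((m + 1 : ℕ) : ℝ) ^ La rp)⁻¹ * ((((m + 1 : ℕ) : ℝ) ^ l)⁻¹ * (A * 2 ^ x * ((m + 1 : ℕ) : ℝ) ^ x)) =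
                A * 2 ^ x * ((((m + 1 : ℕ) : ℝ) ^ La rp * ((m + 1 : ℕ) : ℝ) ^ l)⁻¹ * ((m + 1 : ℕ) : ℝ) ^ x) := by
              rw [mul_inv]
              ring
            rw [e2, e]
            field_simp
        _ ≤ _ := by
            refine mul_le_mul_of_nonneg_left ?_ (by positivity)
            have : (0 : ℝ) < (((m + 1 : ℕ) : ℝ) ^ (t' + 1))⁻¹ := by positivity
            nlinarith
    refine (Finset.sum_le_sum h4).trans ?_
    rw [← Finset.mul_sum]
    exact mul_le_mul_of_nonneg_left (sum_up t' M hM1 N) (by positivity)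
  -- the lower bound
  have hlow := val_low rp l s hg ha
  rw [← hq, ← hn', ← ht'] at hlow
  have hPt : Pi' (l :: rp) = (t : ℝ) * Pi' rp := by rw [Pi']
  rw [hPt] at hlow
  -- the numbers
  have hnum : A * 2 ^ x * ((M : ℝ) ^ t')⁻¹ * (2 * t) ≤ ((n : ℝ) ^ t)⁻¹ := by
    have hkey : 2 * (t : ℝ) * (((q.factorial : ℕ) : ℝ) / (x : ℝ) ^ q) * ((2 * (n : ℝ)) ^ x / ((x.factorial : ℕ) : ℝ)) ≤
        (((32 * R) ^ R : ℕ) : ℝ) ^ t' := by
      have i1 : 2 * (t : ℝ) ≤ 4 ^ k := by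
        have h1 : t ≤ k := htk
        have h2 : k < 2 ^ k := Nat.lt_two_pow_self
        have h3 : 2 * t ≤ 4 ^ k := by
          have h4 : 2 ≤ 2 ^ k := by
            calc 2 = 2 ^ 1 := rfl
              _ ≤ 2 ^ k := Nat.pow_le_pow_right (by norm_num) hk1
          calc 2 * t ≤ 2 ^ k * 2 ^ k := Nat.mul_le_mul h4 (h1.trans h2.le)
            _ = 4 ^ k := by rw [← mul_pow]; norm_num
        exact_mod_cast h3
      have i2 : ((q.factorial : ℕ) : ℝ) / (x : ℝ) ^ q ≤ (R : ℝ) ^ k := by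
        rw [div_le_iff₀ (by positivity)]
        have h1 : q.factorial ≤ q ^ q := Nat.factorial_le_pow q
        have h2 : q ^ q ≤ (R * x) ^ q := Nat.pow_le_pow_left (by omega) q
        have h3 : (R * x) ^ q ≤ R ^ k * x ^ q := by
          rw [mul_pow]
          exact Nat.mul_le_mul_right _ (Nat.pow_le_pow_right hR (by omega))
        exact_mod_cast h1.trans (h2.trans h3)
      have i3 : (2 * (n : ℝ)) ^ x / ((x.factorial : ℕ) : ℝ) ≤ 8 ^ k := by
        refine (Real.pow_div_factorial_le_exp (2 * (n : ℝ)) (by positivity) x).trans ?_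
        have h1 : Real.exp (2 * (n : ℝ)) ≤ Real.exp (k * 2) := by
          rw [Real.exp_le_exp]
          have : (n : ℝ) ≤ k := by exact_mod_cast hn
          linarith
        refine h1.trans ?_
        rw [Real.exp_nat_mul]
        refine pow_le_pow_left₀ (Real.exp_pos _).le ?_ _
        have h2 : Real.exp 2 = Real.exp 1 ^ 2 := by rw [← Real.exp_nat_mul]; norm_num
        rw [h2]
        have h3 := Real.exp_one_lt_d9
        have h4 := Real.exp_pos 1
        nlinarith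
      have i4 : (((32 * R) ^ k : ℕ) : ℝ) ≤ (((32 * R) ^ R : ℕ) : ℝ) ^ t' := by
        have h1 : (32 * R) ^ k ≤ ((32 * R) ^ R) ^ t' := by
          rw [← pow_mul]
          refine Nat.pow_le_pow_right (by omega) ?_
          calc k ≤ R * x := hkx
            _ ≤ R * t' := Nat.mul_le_mul_left _ (by omega)
        exact_mod_cast h1
      refine le_trans ?_ i4
      calc 2 * (t : ℝ) * (((q.factorial : ℕ) : ℝ) / (x : ℝ) ^ q) * ((2 * (n : ℝ)) ^ x / ((x.factorial : ℕ) : ℝ))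
          ≤ 4 ^ k * (R : ℝ) ^ k * 8 ^ k := by gcongr
        _ = (((32 * R) ^ k : ℕ) : ℝ) := by
            push_cast
            rw [← mul_pow, ← mul_pow]
            congr 1
            ring
    have hMe : (M : ℝ) ^ t' = (((32 * R) ^ R : ℕ) : ℝ) ^ t' * (k : ℝ) ^ t' := by
      rw [hM, ← mul_pow]
      push_cast
      ring
    have hnk : (n : ℝ) ^ t' ≤ (k : ℝ) ^ t' := pow_le_pow_left₀ hn0.le (by exact_mod_cast hn) _
    rw [hMe]
    have hC0 : (0 : ℝ) < (((32 * R) ^ R : ℕ) : ℝ) ^ t' := by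
      have : (0 : ℝ) < (((32 * R) ^ R : ℕ) : ℝ) := by exact_mod_cast hRR
      positivity
    have hnt : (n : ℝ) ^ t = (n : ℝ) ^ x * (n : ℝ) ^ t' := by rw [← pow_add, ← ht'']
    rw [hnt]
    have e1 : A * 2 ^ x * ((((32 * R) ^ R : ℕ) : ℝ) ^ t' * (k : ℝ) ^ t')⁻¹ * (2 * t) =
        (2 * (t : ℝ) * (((q.factorial : ℕ) : ℝ) / (x : ℝ) ^ q) * ((2 * (n : ℝ)) ^ x / ((x.factorial : ℕ) : ℝ))) *
          ((((32 * R) ^ R : ℕ) : ℝ) ^ t')⁻¹ * ((k : ℝ) ^ t')⁻¹ * ((n : ℝ) ^ x)⁻¹ := by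
      rw [hA, mul_inv, mul_pow (2 : ℝ) (n : ℝ) x]
      field_simp
    rw [e1]
    calc (2 * (t : ℝ) * (((q.factorial : ℕ) : ℝ) / (x : ℝ) ^ q) * ((2 * (n : ℝ)) ^ x / ((x.factorial : ℕ) : ℝ))) *
          ((((32 * R) ^ R : ℕ) : ℝ) ^ t')⁻¹ * ((k : ℝ) ^ t')⁻¹ * ((n : ℝ) ^ x)⁻¹
        ≤ ((((32 * R) ^ R : ℕ) : ℝ) ^ t') * ((((32 * R) ^ R : ℕ) : ℝ) ^ t')⁻¹ * ((k : ℝ) ^ t')⁻¹ * ((n : ℝ) ^ x)⁻¹ := by
          gcongr
      _ = ((k : ℝ) ^ t')⁻¹ * ((n : ℝ) ^ x)⁻¹ := by rw [mul_inv_cancel₀ hC0.ne', one_mul]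
      _ ≤ ((n : ℝ) ^ t')⁻¹ * ((n : ℝ) ^ x)⁻¹ := by
          refine mul_le_mul_of_nonneg_right (inv_anti₀ (by positivity) hnk) (by positivity)
      _ = ((n : ℝ) ^ x * (n : ℝ) ^ t')⁻¹ := by rw [mul_inv]; ring
  -- conclusion
  have hDP : 0 < D s * Pi' rp := mul_pos hDs hPr
  have ht0 : (0 : ℝ) < t := by exact_mod_cast (by omega : 0 < t)
  have hfin : U (rp.reverse ++ [l]) (fun n => if M ≤ n then H s n else 0) N * (D s * Pi' rp) * (2 * t) ≤
      val (rp.reverse ++ l :: s) * (D s * Pi' rp) * t := by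
    calc U (rp.reverse ++ [l]) (fun n => if M ≤ n then H s n else 0) N * (D s * Pi' rp) * (2 * t)
        ≤ A * 2 ^ x * ((M : ℝ) ^ t')⁻¹ * (2 * t) := mul_le_mul_of_nonneg_right hup (by positivity)
      _ ≤ ((n : ℝ) ^ t)⁻¹ := hnum
      _ ≤ _ := hlow
      _ = _ := by ring
  have h20 : 0 < (D s * Pi' rp) * t := mul_pos hDP ht0
  refine le_of_mul_le_mul_right ?_ h20
  linarith

/-- moving a unit to the next smaller variable -/
theorem val_move (p1 : List ℕ) (α β : ℕ) (s : List ℕ) (hg : Gd (β :: (α + 1) :: p1.reverse)) (hs : ∀ a ∈ s, 1 ≤ a)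
    (ha : Adm (p1 ++ (α + 1) :: β :: s)) (ha' : Adm (p1 ++ α :: (β + 1) :: s)) (k R x : ℕ) (hx : 1 ≤ x) (hR : 1 ≤ R)
    (hkx : k ≤ R * x) (ht : 2 * x ≤ La (β :: (α + 1) :: p1.reverse)) (htk : La (β :: (α + 1) :: p1.reverse) ≤ k)
    (hn : p1.length + 2 + s.length ≤ k) :
    (1 + 1 / (2 * ((32 * R) ^ R * k : ℕ))) * val (p1 ++ (α + 1) :: β :: s) ≤ val (p1 ++ α :: (β + 1) :: s) := by
  have e1 : ((α + 1) :: p1.reverse).reverse ++ [β] = p1 ++ (α + 1) :: ([] ++ [β]) := by simp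
  have e2 : ((α + 1) :: p1.reverse).reverse ++ β :: s = p1 ++ (α + 1) :: β :: s := by simp
  have h1 := far1 ((α + 1) :: p1.reverse) β s hg hs (by rw [e2]; exact ha) k R x hx hR hkx ht htk (by
    rw [List.length_cons, List.length_reverse]; omega)
  rw [e1, e2] at h1
  set M := (32 * R) ^ R * k with hM
  have hM1 : 1 ≤ M := by
    have h2 : 1 ≤ (32 * R) ^ R := Nat.one_le_pow _ _ (by omega)
    have h3 : 1 ≤ k := by omega
    exact Nat.mul_le_mul h2 h3
  have hM0 : (0 : ℝ) < M := by exact_mod_cast hM1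
  have h2 : ∀ N, (1 + 1 / (M : ℝ)) * H (p1 ++ (α + 1) :: β :: s) N - 1 / M * (1 / 2 * val (p1 ++ (α + 1) :: β :: s)) ≤
      val (p1 ++ α :: (β + 1) :: s) := by
    intro N
    have h3 := swap_H p1 [] s α β M hM1 N
    rw [List.length_nil, Nat.cast_zero, zero_add, List.nil_append, List.nil_append, List.nil_append] at h3
    have h4 := H_le_val _ ha' N
    have h5 := h1 N
    rw [List.nil_append] at h5
    have h6 := mul_le_mul_of_nonneg_left h5 (by positivity : (0 : ℝ) ≤ 1 / M)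
    linarith
  have h3 := (tendsto_H _ ha).const_mul (1 + 1 / (M : ℝ))
  have h4 := (h3.sub_const (1 / (M : ℝ) * (1 / 2 * val (p1 ++ (α + 1) :: β :: s))))
  have h5 := le_of_tendsto' h4 h2
  refine le_trans (le_of_eq ?_) h5
  field_simp
  ring

end Pool.Agent.L5helper80.MZ
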