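import Mathlib
import Pool.Agent.L5helper5.PM.Mult
import Pool.Agent.L5helper80.MZ.Cube
import Pool.Agent.L5helper80.MZ.Far

/-!
# Few admissible indices have a value in a short interval
-/

set_option autoImplicit false

namespace Pool.Agent.L5helper80.MZ

open Finset
open Pool.Agent.H447R2.MZ (Adm val)
open Pool.Agent.L5helper5.SP (L23 L23_cons L23_app sk Sk wd ori exists_wd wd_congr ori_true choose_le sk_Sk)
open Pool.Agent.L5helper5.PM (cmp cmp_nil cmp_three cmp_two cmp_head cmp_ge cmp_adm cmp_sum WL mem_WL card_WL AI mem_AI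
  card_AI SK SK_Sk sk_mem T2 T3)

/-! ### lists -/

lemma La_app : ∀ a b : List ℕ, La (a ++ b) = La a + La b
  | [], b => by rw [List.nil_append, La, zero_add]
  | (x :: a), b => by rw [List.cons_append, La, La, La_app a b]; ring

lemma La_rev : ∀ a : List ℕ, La a.reverse = La a
  | [] => rfl
  | (x :: a) => by
    rw [List.reverse_cons, La_app, La_rev a, La, La, La]
    ring

lemma La_le_sum : ∀ a : List ℕ, La a ≤ a.sum
  | [] => le_rfl
  | (x :: a) => by
    rw [La, List.sum_cons]
    have := La_le_sum a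
    omega

lemma len_le_sum : ∀ a : List ℕ, (∀ x ∈ a, 1 ≤ x) → a.length ≤ a.sum
  | [], _ => le_rfl
  | (x :: a), h => by
    rw [List.length_cons, List.sum_cons]
    have h1 := len_le_sum a fun y hy => h y (by simp [hy])
    have h2 := h x (by simp)
    omega

lemma Gd_rev (L : List ℕ) : (∀ x ∈ L, 1 ≤ x) → (∀ a t, L = a :: t → 2 ≤ a) → Gd L.reverse := by
  induction L using List.reverseRecOn with
  | nil => intro _ _; rw [List.reverse_nil, Gd]; trivial
  | append_singleton L x ih =>
    intro h1 h2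
    rw [List.reverse_append, List.reverse_singleton, List.singleton_append, Gd]
    have h3 : Gd L.reverse := ih (fun y hy => h1 y (by simp [hy])) (fun a t e => h2 a (t ++ [x]) (by rw [e]; simp))
    refine ⟨h1 x (by simp), ?_, h3⟩
    rw [La, La_rev]
    cases L with
    | nil =>
      have := h2 x [] rfl
      rw [La]
      omega
    | cons a t =>
      have := h2 a (t ++ [x]) rfl
      rw [La]
      omega

/-- reading the first part of a word -/
lemma cmp_app' (p : List ℕ) (hp : L23 p) : ∀ c, 1 ≤ c → ∃ (P : List ℕ) (c' : ℕ), 1 ≤ c' ∧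
    La P + c' = c + p.count 3 ∧ (∀ l, cmp c (p ++ l) = P ++ cmp c' l) := by
  induction p with
  | nil => intro c hc; exact ⟨[], c, hc, by simp [La], fun l => rfl⟩
  | cons a p ih =>
    obtain ⟨h1, h2⟩ := L23_cons.1 hp
    intro c hc
    rcases h1 with rfl | rfl
    · obtain ⟨P, c', hc', e, h⟩ := ih h2 1 le_rfl
      refine ⟨c :: P, c', hc', ?_, fun l => by rw [List.cons_append, cmp_two, h, List.cons_append]⟩
      rw [La, List.count_cons_of_ne (by norm_num)]
      omega
    · obtain ⟨P, c', hc', e, h⟩ := ih h2 (c + 1) (by omega)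
      refine ⟨P, c', hc', ?_, fun l => by rw [List.cons_append, cmp_three, h]⟩
      rw [List.count_cons_self]
      omega

/-! ### the moves -/

/-- the value of the index of a word -/
noncomputable def Fv (w : List ℕ) : ℝ := val (Pool.Agent.L5helper5.PM.cmp 2 w)

/-- the growth of one move -/
noncomputable def gr (R k : ℕ) : ℝ := 1 + 1 / (2 * ((32 * R) ^ R * k : ℕ))

lemma one_le_gr (R k : ℕ) : 1 ≤ gr R k := by
  have : (0 : ℝ) ≤ 1 / (2 * ((32 * R) ^ R * k : ℕ)) := by positivity
  rw [gr]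
  linarith

lemma move_one {u v : List ℕ} (hu : L23 u) (hv : L23 v) {k R x : ℕ} (hk : u.length + 2 + v.length + 2 = k) (hx : 1 ≤ x)
    (hR : 1 ≤ R) (hkx : k ≤ R * x) (hc : 2 * x ≤ u.count 3 + 2) :
    gr R k * Fv (u ++ 3 :: 2 :: v) ≤ Fv (u ++ 2 :: 3 :: v) := by
  obtain ⟨P, c', hc', e, h⟩ := cmp_app' u hu 2 (by norm_num)
  obtain ⟨b, t, ht⟩ := cmp_head v hv
  have h23 : L23 (2 :: 3 :: v) := L23_cons.2 ⟨Or.inl rfl, L23_cons.2 ⟨Or.inr rfl, hv⟩⟩
  have h32 : L23 (3 :: 2 :: v) := L23_cons.2 ⟨Or.inr rfl, L23_cons.2 ⟨Or.inl rfl, hv⟩⟩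
  have e1 : Pool.Agent.L5helper5.PM.cmp 2 (u ++ 3 :: 2 :: v) = P ++ (c' + 1) :: (b + 1) :: t := by
    rw [h, cmp_three, cmp_two, ht]
  have e2 : Pool.Agent.L5helper5.PM.cmp 2 (u ++ 2 :: 3 :: v) = P ++ c' :: ((b + 1) + 1) :: t := by
    rw [h, cmp_two, cmp_three, ht]
  have a1 : Adm (Pool.Agent.L5helper5.PM.cmp 2 (u ++ 3 :: 2 :: v)) := cmp_adm (L23_app hu h32) le_rfl
  have a2 : Adm (Pool.Agent.L5helper5.PM.cmp 2 (u ++ 2 :: 3 :: v)) := cmp_adm (L23_app hu h23) le_rfl
  have s1 := cmp_sum (u ++ 3 :: 2 :: v) (L23_app hu h32) 2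
  unfold Fv
  rw [e1] at a1 s1 ⊢
  rw [e2] at a2 ⊢
  have hall : ∀ y ∈ P ++ (c' + 1) :: (b + 1) :: t, 1 ≤ y := a1.1
  have hPr : ((b + 1) :: (c' + 1) :: P.reverse) = (P ++ [c' + 1, b + 1]).reverse := by simp
  have hg : Gd ((b + 1) :: (c' + 1) :: P.reverse) := by
    rw [hPr]
    refine Gd_rev _ (fun y hy => hall y ?_) (fun a t' e' => ?_)
    · simp only [List.mem_append, List.mem_cons, List.not_mem_nil, or_false] at hy ⊢
      tauto
    · refine a1.2 a (t' ++ t) ?_
      have h6 : P ++ (c' + 1) :: (b + 1) :: t = (P ++ [c' + 1, b + 1]) ++ t := by simp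
      rw [h6, e', List.cons_append]
  have hLa : La ((b + 1) :: (c' + 1) :: P.reverse) = b + c' + La P := by
    rw [La, La, La_rev]
    omega
  have hsum : (P ++ (c' + 1) :: (b + 1) :: t).sum = k := by
    rw [s1, List.length_append, List.length_cons, List.length_cons]
    omega
  have hlen := len_le_sum _ hall
  rw [hsum, List.length_append, List.length_cons, List.length_cons] at hlen
  refine val_move P c' (b + 1) t hg (fun y hy => hall y (by simp [hy])) a1 a2 k R x hx hR hkx ?_ ?_ ?_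
  · rw [hLa]
    omega
  · have h7 := La_le_sum (P ++ (c' + 1) :: (b + 1) :: t)
    rw [hsum] at h7
    have h8 : La (P ++ (c' + 1) :: (b + 1) :: t) = La P + (c' + (b + La t)) := by
      rw [La_app, La, La, Nat.add_sub_cancel, Nat.add_sub_cancel]
    rw [hLa]
    omega
  · omega

lemma Fv_pos {w : List ℕ} (hw : L23 w) : 0 < Fv w := by
  unfold Fv
  have ha := cmp_adm hw (le_refl 2)
  have h1 := H_ge_D (Pool.Agent.L5helper5.PM.cmp 2 w) (Pool.Agent.L5helper5.PM.cmp 2 w).length le_rfl
  have h2 := D_pos (Pool.Agent.L5helper5.PM.cmp 2 w)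
  have h3 := Pool.Agent.H447R2.MZ.H_le_val (Pool.Agent.L5helper5.PM.cmp 2 w) ha (Pool.Agent.L5helper5.PM.cmp 2 w).length
  have h4 : 0 < Pool.Agent.H447R2.MZ.H (Pool.Agent.L5helper5.PM.cmp 2 w) (Pool.Agent.L5helper5.PM.cmp 2 w).length := by
    by_contra h5
    push Not at h5
    nlinarith
  linarith

lemma move_far (X : List ℕ) : L23 X → ∀ {u v : List ℕ}, L23 u → L23 v → ∀ {k R x : ℕ},
    u.length + X.length + 2 + v.length + 2 = k → 1 ≤ x → 1 ≤ R → k ≤ R * x → 2 * x ≤ u.count 3 + 2 →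
    gr R k ^ (X.length + 1) * Fv (u ++ 3 :: (X ++ 2 :: v)) ≤ Fv (u ++ 2 :: (X ++ 3 :: v)) := by
  induction X with
  | nil =>
    intro _ u v hu hv k R x hk hx hR hkx hc
    rw [List.length_nil] at hk
    rw [List.length_nil, zero_add, pow_one, List.nil_append, List.nil_append]
    exact move_one hu hv (by omega) hx hR hkx hc
  | cons a X ih =>
    intro hX u v hu hv k R x hk hx hR hkx hc
    obtain ⟨h1, h2⟩ := L23_cons.1 hX
    rw [List.length_cons] at hk
    have h3v : L23 (3 :: v) := L23_cons.2 ⟨Or.inr rfl, hv⟩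
    have h2v : L23 (2 :: v) := L23_cons.2 ⟨Or.inl rfl, hv⟩
    have hg := one_le_gr R k
    have hgp : (0 : ℝ) ≤ gr R k ^ (X.length + 1) := by positivity
    rw [List.length_cons, pow_succ]
    rcases h1 with rfl | rfl
    · have i1 := move_one (v := X ++ 2 :: v) hu (L23_app h2 h2v) (k := k) (R := R) (x := x) (by
        rw [List.length_append, List.length_cons]; omega) hx hR hkx hc
      have hu2 : L23 (u ++ [2]) := L23_app hu (by intro y hy; simp at hy; exact Or.inl hy)
      have i2 := ih h2 hu2 hv (k := k) (R := R) (x := x) (by rw [List.length_append, List.length_singleton]; omega)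
        hx hR hkx (by rw [List.count_append]; omega)
      rw [List.append_assoc, List.singleton_append, List.append_assoc, List.singleton_append] at i2
      rw [List.cons_append, List.cons_append]
      calc gr R k ^ (X.length + 1) * gr R k * Fv (u ++ 3 :: 2 :: (X ++ 2 :: v))
          = gr R k ^ (X.length + 1) * (gr R k * Fv (u ++ 3 :: 2 :: (X ++ 2 :: v))) := by ring
        _ ≤ gr R k ^ (X.length + 1) * Fv (u ++ 2 :: 3 :: (X ++ 2 :: v)) := mul_le_mul_of_nonneg_left i1 hgp
        _ ≤ _ := i2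
    · have i1 := move_one (v := X ++ 3 :: v) hu (L23_app h2 h3v) (k := k) (R := R) (x := x) (by
        rw [List.length_append, List.length_cons]; omega) hx hR hkx hc
      have hu3 : L23 (u ++ [3]) := L23_app hu (by intro y hy; simp at hy; exact Or.inr hy)
      have i2 := ih h2 hu3 hv (k := k) (R := R) (x := x) (by rw [List.length_append, List.length_singleton]; omega)
        hx hR hkx (by rw [List.count_append]; omega)
      rw [List.append_assoc, List.singleton_append, List.append_assoc, List.singleton_append] at i2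
      rw [List.cons_append, List.cons_append]
      calc gr R k ^ (X.length + 1) * gr R k * Fv (u ++ 3 :: 3 :: (X ++ 2 :: v))
          = gr R k * (gr R k ^ (X.length + 1) * Fv (u ++ 3 :: 3 :: (X ++ 2 :: v))) := by ring
        _ ≤ gr R k * Fv (u ++ 3 :: 2 :: (X ++ 3 :: v)) := mul_le_mul_of_nonneg_left i2 (by linarith)
        _ ≤ _ := i1

/-! ### the Boolean lattices -/

/-- the sum of the letters, weighted with their places -/
def ws : List ℕ → ℕ
  | [] => 0
  | (_ :: l) => l.sum + ws l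

lemma ws_swap (p q : List ℕ) : ws (p ++ 3 :: 2 :: q) + 1 = ws (p ++ 2 :: 3 :: q) := by
  induction p with
  | nil =>
    rw [List.nil_append, List.nil_append, ws, ws, ws, ws, List.sum_cons, List.sum_cons]
    ring
  | cons a p ih =>
    rw [List.cons_append, List.cons_append, ws, ws, ← ih]
    simp only [List.sum_append, List.sum_cons]
    ring

/-- a property which holds for few words of each Boolean lattice holds for few words of length `n` -/
theorem fewL' (P : List ℕ → Prop) [DecidablePred P] (n : ℕ)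
    (hP : ∀ s, Sk s → (Finset.univ.filter fun A : Finset (Fin (s.count 5)) => P (wd s (ori A))).card ≤
      (s.count 5).choose (s.count 5 / 2)) :
    (((WL n).filter P).card : ℝ) ≤ 2 / √(n + 1) * 2 ^ n := by
  classical
  have fc : ∀ s, Sk s → (((WL n).filter P).filter fun w => sk w = s).card ≤ (s.count 5).choose (s.count 5 / 2) := by
    intro s hs
    refine le_trans ?_ (hP s hs)
    have hsub : ((WL n).filter P).filter (fun w => sk w = s) ⊆
        (univ.filter fun A : Finset (Fin (s.count 5)) => P (wd s (ori A))).image (fun A => wd s (ori A)) := by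
      intro w hw
      rw [mem_filter, mem_filter, mem_WL] at hw
      obtain ⟨⟨⟨h1, -⟩, h2⟩, h3⟩ := hw
      obtain ⟨χ, hχ⟩ := exists_wd w h1
      rw [h3] at hχ
      have e : wd s (ori (univ.filter fun i : Fin (s.count 5) => χ i = true)) = w := by
        rw [← hχ]
        refine wd_congr hs _ _ fun i hi => ?_
        rw [Bool.eq_iff_iff]
        rw [ori_true _ (⟨i, hi⟩ : Fin (s.count 5)), mem_filter]
        simp
      rw [mem_image]
      refine ⟨univ.filter fun i : Fin (s.count 5) => χ i = true, ?_, e⟩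
      rw [mem_filter]
      exact ⟨mem_univ _, by rw [e]; exact h2⟩
    exact (card_le_card hsub).trans card_image_le
  have h1 : ((WL n).filter P).card ≤ ∑ s ∈ SK n, (s.count 5).choose (s.count 5 / 2) := by
    rw [card_eq_sum_card_fiberwise (f := sk) (t := SK n)]
    · exact sum_le_sum fun s hs => fc s (SK_Sk n s hs)
    · intro w hw
      rw [mem_coe, mem_filter] at hw
      exact mem_coe.2 (sk_mem n w hw.1)
  set q : ℝ := √((n : ℝ) + 1) with hq
  have hq0 : 0 < q := Real.sqrt_pos.2 (by positivity)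
  have hq2 : q * q = n + 1 := Real.mul_self_sqrt (by positivity)
  have h2 : ∀ s ∈ SK n, (((s.count 5).choose (s.count 5 / 2) : ℕ) : ℝ) ≤
      (q / 4) * (2 ^ (s.count 5) / ((s.count 5 : ℕ) + 1)) + (1 / q) * 2 ^ (s.count 5) := by
    intro s _
    refine (choose_le _).trans ?_
    set c : ℝ := ((s.count 5 : ℕ) : ℝ) + 1 with hc
    have hc0 : 0 < c := by positivity
    set y : ℝ := √c with hy
    have hy0 : 0 < y := Real.sqrt_pos.2 hc0
    have hy2 : y * y = c := Real.mul_self_sqrt hc0.le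
    have h3 : 1 / y ≤ q / 4 * (1 / c) + 1 / q := by
      rw [← hy2]
      have h4 : q / 4 * (1 / (y * y)) + 1 / q - 1 / y = (q - 2 * y) ^ 2 / (4 * q * (y * y)) := by
        field_simp
        ring
      have h5 : 0 ≤ (q - 2 * y) ^ 2 / (4 * q * (y * y)) := by positivity
      linarith
    calc (2 : ℝ) ^ (s.count 5) / y = 2 ^ (s.count 5) * (1 / y) := by ring
      _ ≤ 2 ^ (s.count 5) * (q / 4 * (1 / c) + 1 / q) := mul_le_mul_of_nonneg_left h3 (by positivity)
      _ = _ := by ring
  calc (((WL n).filter P).card : ℝ)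
      ≤ ((∑ s ∈ SK n, (s.count 5).choose (s.count 5 / 2) : ℕ) : ℝ) := by exact_mod_cast h1
    _ = ∑ s ∈ SK n, (((s.count 5).choose (s.count 5 / 2) : ℕ) : ℝ) := by push_cast; rfl
    _ ≤ ∑ s ∈ SK n, ((q / 4) * (2 ^ (s.count 5) / ((s.count 5 : ℕ) + 1)) + (1 / q) * 2 ^ (s.count 5)) :=
        sum_le_sum h2
    _ = (q / 4) * ∑ s ∈ SK n, ((2 : ℝ) ^ (s.count 5) / ((s.count 5 : ℕ) + 1)) + (1 / q) * ∑ s ∈ SK n, (2 : ℝ) ^ (s.count 5) := by
        rw [sum_add_distrib, mul_sum, mul_sum]
    _ ≤ (q / 4) * (2 ^ n * (4 / (n + 1))) + (1 / q) * 2 ^ n := by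
        have := T2 n
        have := T3 n
        gcongr
    _ = 2 / q * 2 ^ n := by
        rw [← hq2]
        field_simp
        ring

/-- the words with a given first part, all words in it with many letters `3` -/
lemma fixed_first {A : List ℕ} (hA : L23 A) {k R x n' : ℕ} (hk : A.length + n' + 2 = k) (hx : 1 ≤ x) (hR : 1 ≤ R)
    (hkx : k ≤ R * x) (hc : 2 * x ≤ A.count 3 + 2) {c : ℝ} (hc0 : 0 ≤ c) (hcg : c ≤ (n' / 2 : ℕ) * Real.log (gr R k)) (x0 : ℝ) :
    (((WL n').filter fun z => x0 ≤ Real.log (Fv (A ++ ph z)) ∧ Real.log (Fv (A ++ ph z)) < x0 + c).card : ℝ) ≤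
      2 / √((n' : ℝ) + 1) * 2 ^ n' := by
  classical
  set G : List ℕ → ℝ := fun z => if z.length = n' then Real.log (Fv (A ++ ph z)) else c * ws z with hG
  have hgrow : Grow c G := by
    intro p q hp hq hpe
    have hlen : (p ++ 3 :: 2 :: q).length = (p ++ 2 :: 3 :: q).length := by simp
    by_cases hl : (p ++ 2 :: 3 :: q).length = n'
    · rw [hG]
      simp only
      rw [if_pos (by rw [hlen]; exact hl), if_pos hl]
      have e : ∀ x y : ℕ, ph (p ++ x :: y :: q) = ev p ++ x :: ((ev q ++ od p) ++ y :: (od q ++ re q)) := by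
        intro x y
        rw [ph, ev_app _ _ hpe, od_app _ _ hpe, re_app _ _ hpe, ev, od, re]
        simp
      rw [e, e, ← List.append_assoc, ← List.append_assoc]
      have hX : L23 (ev q ++ od p) := L23_app (fun x hx => hq x (mem_ev q x hx)) (fun x hx => hp x (mem_od p x hx))
      have hu : L23 (A ++ ev p) := L23_app hA (fun x hx => hp x (mem_ev p x hx))
      have hv : L23 (od q ++ re q) := L23_app (fun x hx => hq x (mem_od q x hx)) (fun x hx => hq x (mem_re q x hx))
      rw [List.length_append, List.length_cons, List.length_cons] at hl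
      obtain ⟨m, hm⟩ := hpe
      have h1 := move_far (ev q ++ od p) hX hu hv (k := k) (R := R) (x := x) (by
        simp only [List.length_append, len_ev, len_od, len_re]
        omega) hx hR hkx (by rw [List.count_append]; omega)
      have hL : (ev q ++ od p).length + 1 = n' / 2 := by
        simp only [List.length_append, len_ev, len_od]
        omega
      rw [hL] at h1
      have h2v : L23 (3 :: ((ev q ++ od p) ++ 2 :: (od q ++ re q))) :=
        L23_cons.2 ⟨Or.inr rfl, L23_app hX (L23_cons.2 ⟨Or.inl rfl, hv⟩)⟩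
      have hpos := Fv_pos (L23_app hu h2v)
      have hg1 := one_le_gr R k
      have h2 := Real.log_le_log (mul_pos (by positivity) hpos) h1
      rw [Real.log_mul (by positivity) hpos.ne', Real.log_pow] at h2
      linarith
    · rw [hG]
      simp only
      rw [if_neg (by rw [hlen]; exact hl), if_neg hl]
      have := ws_swap p q
      have h1 : ((ws (p ++ 3 :: 2 :: q) : ℕ) : ℝ) + 1 = ws (p ++ 2 :: 3 :: q) := by exact_mod_cast this
      rw [← h1]
      linarith
  have h1 := fewL' (fun z => x0 ≤ G z ∧ G z < x0 + c) n' (fun s hs => cube_le hc0 hgrow hs x0)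
  have h2 : (WL n').filter (fun z => x0 ≤ Real.log (Fv (A ++ ph z)) ∧ Real.log (Fv (A ++ ph z)) < x0 + c) =
      (WL n').filter fun z => x0 ≤ G z ∧ G z < x0 + c := by
    refine filter_congr fun z hz => ?_
    have h3 := ((mem_WL n' z).1 hz).2
    rw [hG]
    simp only
    rw [if_pos h3]
  rw [h2]
  exact h1

/-! ### the first parts with few letters `3` -/

lemma gen_three (x : ℝ) (hx : 0 ≤ x) : ∀ n : ℕ, ∑ w ∈ WL n, x ^ (w.count 3) ≤ (1 + x) ^ n := by
  intro n
  induction n with
  | zero => rw [WL]; simp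
  | succ n ih =>
    rw [WL]
    have h2 : ∑ w ∈ (WL n).image (List.cons 2) ∪ (WL n).image (List.cons 3), x ^ (w.count 3) ≤
        ∑ w ∈ (WL n).image (List.cons 2), x ^ (w.count 3) + ∑ w ∈ (WL n).image (List.cons 3), x ^ (w.count 3) := by
      have h3 := sum_union_inter (s₁ := (WL n).image (List.cons 2)) (s₂ := (WL n).image (List.cons 3))
        (f := fun w => x ^ (w.count 3))
      have h4 : 0 ≤ ∑ w ∈ (WL n).image (List.cons 2) ∩ (WL n).image (List.cons 3), x ^ (w.count 3) :=
        sum_nonneg fun s _ => by positivity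
      linarith
    refine h2.trans ?_
    have e2 : ∑ w ∈ (WL n).image (List.cons 2), x ^ (w.count 3) = ∑ w ∈ WL n, x ^ (w.count 3) := by
      rw [sum_image (fun a _ b _ h => List.cons_injective h)]
      exact sum_congr rfl fun s _ => by simp
    have e3 : ∑ w ∈ (WL n).image (List.cons 3), x ^ (w.count 3) = x * ∑ w ∈ WL n, x ^ (w.count 3) := by
      rw [sum_image (fun a _ b _ h => List.cons_injective h), mul_sum]
      refine sum_congr rfl fun s _ => ?_
      rw [List.count_cons_self, pow_succ]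
      ring
    rw [e2, e3, pow_succ]
    nlinarith

lemma few_three (a y : ℕ) (hy : 8 * y ≤ a) : (((WL a).filter fun w => w.count 3 < y).card : ℝ) ≤ 1.5 ^ a := by
  have h1 := gen_three (1 / 4) (by norm_num) a
  have h2 : (((WL a).filter fun w => w.count 3 < y).card : ℝ) * (1 / 4) ^ y ≤ ∑ w ∈ WL a, (1 / 4 : ℝ) ^ (w.count 3) := by
    calc (((WL a).filter fun w => w.count 3 < y).card : ℝ) * (1 / 4) ^ y
        = ∑ _w ∈ (WL a).filter (fun w => w.count 3 < y), (1 / 4 : ℝ) ^ y := by rw [sum_const, nsmul_eq_mul]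
      _ ≤ ∑ w ∈ (WL a).filter (fun w => w.count 3 < y), (1 / 4 : ℝ) ^ (w.count 3) :=
          sum_le_sum fun w hw => pow_le_pow_of_le_one (by norm_num) (by norm_num) (mem_filter.1 hw).2.le
      _ ≤ _ := sum_le_sum_of_subset_of_nonneg (filter_subset _ _) fun w _ _ => by positivity
  have h3 : (4 : ℝ) ^ y ≤ 1.19 ^ a := by
    calc (4 : ℝ) ^ y ≤ (1.19 ^ 8) ^ y := pow_le_pow_left₀ (by norm_num) (by norm_num) _
      _ = 1.19 ^ (8 * y) := by rw [pow_mul]
      _ ≤ 1.19 ^ a := pow_le_pow_right₀ (by norm_num) hy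
  have h4 : (((WL a).filter fun w => w.count 3 < y).card : ℝ) * (1 / 4) ^ y * 4 ^ y =
      (((WL a).filter fun w => w.count 3 < y).card : ℝ) := by
    rw [mul_assoc, ← mul_pow]
    norm_num
  rw [← h4]
  calc (((WL a).filter fun w => w.count 3 < y).card : ℝ) * (1 / 4) ^ y * 4 ^ y
      ≤ (1 + 1 / 4) ^ a * 1.19 ^ a := mul_le_mul (h2.trans h1) h3 (by positivity) (by positivity)
    _ = (1.4875 : ℝ) ^ a := by rw [← mul_pow]; norm_num
    _ ≤ 1.5 ^ a := pow_le_pow_left₀ (by norm_num) (by norm_num) _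

/-! ### all words -/

lemma ph_image_WL (n : ℕ) : (WL n).image ph = WL n := by
  refine Finset.eq_of_subset_of_card_le ?_ ?_
  · intro w hw
    rw [mem_image] at hw
    obtain ⟨z, hz, rfl⟩ := hw
    rw [mem_WL] at hz ⊢
    exact ⟨ph_L23 hz.1, by rw [len_ph, hz.2]⟩
  · rw [card_image_of_injective _ ph_inj]

/-- splitting a word -/
lemma split_count (P : List ℕ → Prop) [DecidablePred P] (a n' : ℕ) :
    ((WL (a + n')).filter P).card ≤ ∑ A ∈ WL a, ((WL n').filter fun z => P (A ++ ph z)).card := by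
  classical
  have h1 : (WL (a + n')).filter P ⊆
      (WL a).biUnion fun A => ((WL n').filter fun z => P (A ++ ph z)).image fun z => A ++ ph z := by
    intro w hw
    rw [mem_filter, mem_WL] at hw
    obtain ⟨⟨hL, hlen⟩, hPw⟩ := hw
    rw [mem_biUnion]
    have h2 : w.drop a ∈ (WL n').image ph := by
      rw [ph_image_WL, mem_WL]
      exact ⟨fun x hx => hL x (List.mem_of_mem_drop hx), by rw [List.length_drop]; omega⟩
    rw [mem_image] at h2
    obtain ⟨z, hz, hzw⟩ := h2
    have h3 : w.take a ++ ph z = w := by rw [hzw, List.take_append_drop]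
    refine ⟨w.take a, ?_, ?_⟩
    · rw [mem_WL]
      exact ⟨fun x hx => hL x (List.mem_of_mem_take hx), by rw [List.length_take]; omega⟩
    · rw [mem_image]
      exact ⟨z, mem_filter.2 ⟨hz, by rw [h3]; exact hPw⟩, h3⟩
  refine (card_le_card h1).trans (card_biUnion_le.trans (sum_le_sum fun A _ => card_image_le))

/-- the growth constant -/
noncomputable def c0 : ℝ := 1 / (24 * ((32 * 64) ^ 64 : ℕ))

lemma c0_pos : 0 < c0 := by
  rw [c0]
  positivity

lemma c0_le : c0 ≤ 1 := by
  rw [c0, div_le_one (by positivity)]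
  have : (1 : ℝ) ≤ (((32 * 64) ^ 64 : ℕ) : ℝ) := by exact_mod_cast Nat.one_le_pow _ _ (by norm_num)
  linarith

lemma c0_gr {k n' : ℕ} (hk : 100 ≤ k) (hn : k ≤ 8 * (n' / 2)) : c0 ≤ (n' / 2 : ℕ) * Real.log (gr 64 k) := by
  have hC : (0 : ℝ) < (((32 * 64) ^ 64 : ℕ) : ℝ) := by exact_mod_cast Nat.pow_pos (by norm_num)
  set C : ℝ := (((32 * 64) ^ 64 : ℕ) : ℝ) with hCdef
  have hC1 : (1 : ℝ) ≤ C := by rw [hCdef]; exact_mod_cast Nat.one_le_pow _ _ (by norm_num)
  have hk0 : (0 : ℝ) < k := by exact_mod_cast (by omega : 0 < k)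
  have hgr : gr 64 k = 1 + 1 / (2 * (C * k)) := by
    rw [gr, hCdef]
    push_cast
    ring
  have h1 : 1 / (3 * (C * k)) ≤ Real.log (gr 64 k) := by
    have h2 := Real.one_sub_inv_le_log_of_pos (show (0 : ℝ) < gr 64 k by have := one_le_gr 64 k; linarith)
    refine le_trans ?_ h2
    rw [hgr]
    have hCk : 1 ≤ C * k := by
      have : (1 : ℝ) ≤ k := by exact_mod_cast (by omega : 1 ≤ k)
      nlinarith
    have e : 1 - (1 + 1 / (2 * (C * (k : ℝ))))⁻¹ = 1 / (2 * (C * k) + 1) := by
      have : (2 * (C * (k : ℝ)) + 1) ≠ 0 := by positivity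
      field_simp
      ring
    rw [e]
    exact div_le_div_of_nonneg_left (by norm_num) (by positivity) (by linarith)
  have h3 : (k : ℝ) / 8 ≤ ((n' / 2 : ℕ) : ℝ) := by
    have : (k : ℝ) ≤ 8 * ((n' / 2 : ℕ) : ℝ) := by exact_mod_cast hn
    linarith
  calc c0 = (k : ℝ) / 8 * (1 / (3 * (C * k))) := by
        rw [c0, ← hCdef]
        field_simp
        norm_num
    _ ≤ _ := mul_le_mul h3 h1 (by positivity) (Nat.cast_nonneg _)

/-- few words have a value in a half-open interval of length `c0` -/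
theorem ballL {k : ℕ} (hk : 2 ≤ k) (x0 : ℝ) :
    (((WL (k - 2)).filter fun w => x0 ≤ Real.log (Fv w) ∧ Real.log (Fv w) < x0 + c0).card : ℝ) ≤ 10 / √k * 2 ^ (k - 2) := by
  classical
  have hk0 : (0 : ℝ) < k := by exact_mod_cast (by omega : 0 < k)
  have hsk : 0 < √(k : ℝ) := Real.sqrt_pos.2 hk0
  rcases Nat.lt_or_ge k 100 with h100 | h100
  · have h1 : (((WL (k - 2)).filter fun w => x0 ≤ Real.log (Fv w) ∧ Real.log (Fv w) < x0 + c0).card : ℝ) ≤ 2 ^ (k - 2) := by
      have h2 := card_filter_le (WL (k - 2)) (fun w => x0 ≤ Real.log (Fv w) ∧ Real.log (Fv w) < x0 + c0)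
      rw [card_WL] at h2
      exact_mod_cast h2
    have h3 : √(k : ℝ) ≤ 10 := by
      rw [show (10 : ℝ) = √100 by
        rw [show (100 : ℝ) = 10 ^ 2 by norm_num, Real.sqrt_sq (by norm_num)]]
      exact Real.sqrt_le_sqrt (by exact_mod_cast h100.le)
    have h4 : (1 : ℝ) ≤ 10 / √k := by rw [le_div_iff₀ hsk]; linarith
    have h5 : (0 : ℝ) < 2 ^ (k - 2) := by positivity
    nlinarith
  set a := (k - 2) / 2 with ha
  set n' := k - 2 - a with hn'
  set x := k / 64 + 1 with hx
  have hsum : k - 2 = a + n' := by omega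
  have hcount := split_count (fun w => x0 ≤ Real.log (Fv w) ∧ Real.log (Fv w) < x0 + c0) a n'
  rw [← hsum] at hcount
  have hcount' : (((WL (k - 2)).filter fun w => x0 ≤ Real.log (Fv w) ∧ Real.log (Fv w) < x0 + c0).card : ℝ) ≤
      ∑ A ∈ WL a, (((WL n').filter fun z => x0 ≤ Real.log (Fv (A ++ ph z)) ∧ Real.log (Fv (A ++ ph z)) < x0 + c0).card : ℝ) := by
    exact_mod_cast hcount
  have hterm : ∀ A ∈ WL a, (((WL n').filter fun z => x0 ≤ Real.log (Fv (A ++ ph z)) ∧
      Real.log (Fv (A ++ ph z)) < x0 + c0).card : ℝ) ≤ 2 / √((n' : ℝ) + 1) * 2 ^ n' +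
        if A.count 3 < 2 * x then 2 ^ n' else 0 := by
    intro A hA
    rw [mem_WL] at hA
    split_ifs with h
    · have h1 : (((WL n').filter fun z => x0 ≤ Real.log (Fv (A ++ ph z)) ∧
          Real.log (Fv (A ++ ph z)) < x0 + c0).card : ℝ) ≤ 2 ^ n' := by
        have h2 := card_filter_le (WL n') (fun z => x0 ≤ Real.log (Fv (A ++ ph z)) ∧ Real.log (Fv (A ++ ph z)) < x0 + c0)
        rw [card_WL] at h2
        exact_mod_cast h2
      have h3 : (0 : ℝ) ≤ 2 / √((n' : ℝ) + 1) * 2 ^ n' := by positivity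
      linarith
    · rw [add_zero]
      exact fixed_first hA.1 (k := k) (R := 64) (x := x) (by rw [hA.2]; omega) (by omega) (by norm_num) (by omega) (by omega)
        c0_pos.le (c0_gr h100 (by omega)) x0
  have hfew := few_three a (2 * x) (by omega)
  have hmain : (((WL (k - 2)).filter fun w => x0 ≤ Real.log (Fv w) ∧ Real.log (Fv w) < x0 + c0).card : ℝ) ≤
      2 ^ a * (2 / √((n' : ℝ) + 1) * 2 ^ n') + 1.5 ^ a * 2 ^ n' := by
    refine hcount'.trans ((sum_le_sum hterm).trans ?_)
    rw [sum_add_distrib, sum_const, card_WL, nsmul_eq_mul, ← sum_filter, sum_const, nsmul_eq_mul]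
    push_cast
    have := mul_le_mul_of_nonneg_right hfew (by positivity : (0 : ℝ) ≤ 2 ^ n')
    linarith
  refine hmain.trans ?_
  have e1 : (2 : ℝ) ^ (k - 2) = 2 ^ a * 2 ^ n' := by rw [hsum, pow_add]
  have h1 : 2 / √((n' : ℝ) + 1) ≤ 3 / √k := by
    rw [div_le_div_iff₀ (by positivity) hsk]
    have h2 : √(k : ℝ) ≤ √(2 * ((n' : ℝ) + 1)) := by
      refine Real.sqrt_le_sqrt ?_
      exact_mod_cast (by omega : k ≤ 2 * (n' + 1))
    rw [Real.sqrt_mul (by norm_num)] at h2
    have h3 : √(2 : ℝ) ≤ 1.5 := by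
      rw [Real.sqrt_le_left (by norm_num)]
      norm_num
    have h4 : (0 : ℝ) ≤ √((n' : ℝ) + 1) := Real.sqrt_nonneg _
    nlinarith
  have h2 : (1.5 : ℝ) ^ a ≤ 7 / √k * 2 ^ a := by
    have h3 : (1 : ℝ) + a * (1 / 3) ≤ (4 / 3) ^ a := by
      have := one_add_mul_le_pow (a := (1 / 3 : ℝ)) (by norm_num) a
      norm_num at this ⊢
      linarith
    have h4 : (1.5 : ℝ) ^ a * (4 / 3) ^ a = 2 ^ a := by rw [← mul_pow]; norm_num
    have h5 : √(k : ℝ) ≤ k := by
      rw [Real.sqrt_le_left hk0.le]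
      have : (1 : ℝ) ≤ k := by exact_mod_cast (by omega : 1 ≤ k)
      nlinarith
    have h6 : (k : ℝ) ≤ 2 * a + 3 := by exact_mod_cast (by omega : k ≤ 2 * a + 3)
    rw [← h4, div_mul_eq_mul_div, le_div_iff₀ hsk]
    have h7 : (0 : ℝ) < 1.5 ^ a := by positivity
    have h8 : √(k : ℝ) ≤ 7 * (4 / 3) ^ a := by
      have : (0 : ℝ) ≤ a := Nat.cast_nonneg _
      linarith
    nlinarith
  rw [e1]
  have h3 : (0 : ℝ) < 2 ^ a := by positivity
  have h4 : (0 : ℝ) < 2 ^ n' := by positivity
  calc (2 : ℝ) ^ a * (2 / √((n' : ℝ) + 1) * 2 ^ n') + 1.5 ^ a * 2 ^ n'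
      ≤ 2 ^ a * (3 / √k * 2 ^ n') + (7 / √k * 2 ^ a) * 2 ^ n' := by gcongr
    _ = 10 / √k * (2 ^ a * 2 ^ n') := by ring

/-- from short to long intervals -/
theorem window {α : Type*} [DecidableEq α] (S : Finset α) (F : α → ℝ) (c B : ℝ) (hc : 0 < c) (hB : 0 ≤ B)
    (h : ∀ x : ℝ, ((S.filter fun w => x ≤ F w ∧ F w < x + c).card : ℝ) ≤ B) (x L : ℝ) (hL : 0 ≤ L) :
    ((S.filter fun w => x ≤ F w ∧ F w ≤ x + L).card : ℝ) ≤ (L / c + 1) * B := by
  classical
  set t := ⌊L / c⌋₊ with ht
  have hsub : S.filter (fun w => x ≤ F w ∧ F w ≤ x + L) ⊆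
      (range (t + 1)).biUnion fun i => S.filter fun w => x + i * c ≤ F w ∧ F w < x + i * c + c := by
    intro w hw
    rw [mem_filter] at hw
    obtain ⟨hw, h1, h2⟩ := hw
    rw [mem_biUnion]
    have h3 : 0 ≤ (F w - x) / c := div_nonneg (by linarith) hc.le
    refine ⟨⌊(F w - x) / c⌋₊, ?_, ?_⟩
    · rw [mem_range, Nat.lt_succ_iff, ht]
      exact Nat.floor_le_floor (by gcongr; linarith)
    · rw [mem_filter]
      have h4 := Nat.floor_le h3
      have h5 := Nat.lt_floor_add_one ((F w - x) / c)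
      rw [le_div_iff₀ hc] at h4
      rw [div_lt_iff₀ hc] at h5
      exact ⟨hw, by linarith, by linarith⟩
  calc ((S.filter fun w => x ≤ F w ∧ F w ≤ x + L).card : ℝ)
      ≤ (((range (t + 1)).biUnion fun i => S.filter fun w => x + i * c ≤ F w ∧ F w < x + i * c + c).card : ℝ) := by
        exact_mod_cast card_le_card hsub
    _ ≤ ((∑ i ∈ range (t + 1), (S.filter fun w => x + i * c ≤ F w ∧ F w < x + i * c + c).card : ℕ) : ℝ) := by
        exact_mod_cast card_biUnion_le
    _ = ∑ i ∈ range (t + 1), ((S.filter fun w => x + i * c ≤ F w ∧ F w < x + i * c + c).card : ℝ) := by push_cast; rfl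
    _ ≤ ∑ _i ∈ range (t + 1), B := sum_le_sum fun i _ => h _
    _ = ((t : ℝ) + 1) * B := by
        rw [sum_const, card_range, nsmul_eq_mul]
        push_cast
        ring
    _ ≤ _ := by
        refine mul_le_mul_of_nonneg_right ?_ hB
        have := Nat.floor_le (div_nonneg hL hc.le)
        linarith

/-- **few admissible indices have a value in an interval** -/
theorem ballAI {k : ℕ} (hk : 2 ≤ k) (x L : ℝ) (hL : 0 ≤ L) :
    (((AI k).filter fun u => x ≤ Real.log (val u) ∧ Real.log (val u) ≤ x + L).card : ℝ) ≤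
      (L / c0 + 1) * (10 / √k * 2 ^ (k - 2)) := by
  classical
  refine window (AI k) (fun u => Real.log (val u)) c0 (10 / √k * 2 ^ (k - 2)) c0_pos (by positivity) (fun x => ?_) x L hL
  refine le_trans ?_ (ballL hk x)
  have h1 : ((AI k).filter fun u => x ≤ Real.log (val u) ∧ Real.log (val u) < x + c0).card ≤
      ((WL (k - 2)).filter fun w => x ≤ Real.log (Fv w) ∧ Real.log (Fv w) < x + c0).card := by
    rw [AI, filter_image]
    exact card_image_le
  exact_mod_cast h1

end Pool.Agent.L5helper80.MZ
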