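import Mathlib

/-!
# Tuples with a dominant value
-/

set_option autoImplicit false

namespace Pool.Agent.L5helper80.MZ

open Finset

section count

variable {α : Type*} [DecidableEq α]

/-- few tuples give a linear form a value in a short interval -/
lemma one_form {r : ℕ} (W : Fin r → Finset α) (F : α → ℝ) (μ L : ℝ)
    (hm : ∀ i, ∀ x : ℝ, (((W i).filter fun w => x ≤ F w ∧ F w ≤ x + L).card : ℝ) ≤ μ * (W i).card)
    (c : Fin r → ℤ) (hc : c ≠ 0) (y : ℝ) :
    (((Fintype.piFinset W).filter fun w => |∑ i, (c i : ℝ) * F (w i) - y| ≤ L / 2).card : ℝ) ≤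
      μ * ∏ i, ((W i).card : ℝ) := by
  classical
  obtain ⟨i, hi⟩ : ∃ i, c i ≠ 0 := by
    by_contra h
    push Not at h
    exact hc (funext h)
  have hir : (c i : ℝ) ≠ 0 := by exact_mod_cast hi
  have hi1 : (1 : ℝ) ≤ |(c i : ℝ)| := by exact_mod_cast Int.one_le_abs hi
  set B := (Fintype.piFinset W).filter fun w => |∑ i, (c i : ℝ) * F (w i) - y| ≤ L / 2 with hB
  let f : (Fin r → α) → ({j : Fin r // j ≠ i} → α) := fun w j => w j
  set T : Finset ({j : Fin r // j ≠ i} → α) := Fintype.piFinset fun j => W j with hT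
  have hTc : (T.card : ℝ) * (W i).card = ∏ j, ((W j).card : ℝ) := by
    rw [hT, Fintype.card_piFinset]
    push_cast
    rw [← Finset.prod_erase_mul univ (fun j => ((W j).card : ℝ)) (mem_univ i)]
    congr 1
    exact (Finset.prod_subtype (univ.erase i) (fun j => by simp) (fun j => ((W j).card : ℝ))).symm
  have hmap : ∀ w ∈ B, f w ∈ T := by
    intro w hw
    rw [hB, mem_filter, Fintype.mem_piFinset] at hw
    rw [hT, Fintype.mem_piFinset]
    exact fun j => hw.1 j
  have hfib : ∀ u ∈ T, ((B.filter fun w => f w = u).card : ℝ) ≤ μ * (W i).card := by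
    intro u _
    set z := (y - ∑ j : {j : Fin r // j ≠ i}, (c j : ℝ) * F (u j)) / c i with hz
    refine le_trans ?_ (hm i (z - L / 2))
    have h1 : (B.filter fun w => f w = u).card ≤
        ((W i).filter fun w => z - L / 2 ≤ F w ∧ F w ≤ z - L / 2 + L).card := by
      refine card_le_card_of_injOn (fun w => w i) ?_ ?_
      · intro w hw
        rw [mem_coe, mem_filter, hB, mem_filter, Fintype.mem_piFinset] at hw
        obtain ⟨⟨h2, h3⟩, h4⟩ := hw
        rw [mem_coe, mem_filter]
        refine ⟨h2 i, ?_⟩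
        have h5 : ∑ j, (c j : ℝ) * F (w j) = (c i : ℝ) * F (w i) +
            ∑ j : {j : Fin r // j ≠ i}, (c j : ℝ) * F (w j) := by
          rw [← Finset.add_sum_erase univ (fun j => (c j : ℝ) * F (w j)) (mem_univ i)]
          congr 1
          exact Finset.sum_subtype (univ.erase i) (fun j => by simp) (fun j => (c j : ℝ) * F (w j))
        have h6 : ∑ j : {j : Fin r // j ≠ i}, (c j : ℝ) * F (w j) =
            ∑ j : {j : Fin r // j ≠ i}, (c j : ℝ) * F (u j) := by rw [← h4]
        rw [h5, h6] at h3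
        have h7 : (c i : ℝ) * F (w i) + ∑ j : {j : Fin r // j ≠ i}, (c j : ℝ) * F (u j) - y =
            (c i : ℝ) * (F (w i) - z) := by
          rw [hz]
          field_simp
          ring
        rw [h7, abs_mul] at h3
        have h8 : |F (w i) - z| ≤ L / 2 := by
          have h9 := mul_le_mul_of_nonneg_right hi1 (abs_nonneg (F (w i) - z))
          linarith
        rw [abs_le] at h8
        constructor
        · show z - L / 2 ≤ F (w i)
          linarith [h8.1]
        · show F (w i) ≤ z - L / 2 + L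
          linarith [h8.2]
      · intro w hw w' hw' h
        rw [mem_coe, mem_filter] at hw hw'
        funext j
        by_cases hj : j = i
        · rw [hj]; exact h
        · have h6 : f w = f w' := hw.2.trans hw'.2.symm
          exact congrFun h6 ⟨j, hj⟩
    exact_mod_cast h1
  rw [card_eq_sum_card_fiberwise (f := f) (t := T) (fun w hw => mem_coe.2 (hmap w (mem_coe.1 hw)))]
  push_cast
  calc ∑ u ∈ T, ((B.filter fun w => f w = u).card : ℝ) ≤ ∑ _u ∈ T, μ * (W i).card := sum_le_sum hfib
    _ = μ * ((T.card : ℝ) * (W i).card) := by rw [sum_const, nsmul_eq_mul]; ring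
    _ = _ := by rw [hTc]

/-- union bound over finitely many forms -/
lemma many_forms {r : ℕ} {ι : Type*} (I : Finset ι) (W : Fin r → Finset α) (F : α → ℝ) (μ L : ℝ)
    (hm : ∀ i, ∀ x : ℝ, (((W i).filter fun w => x ≤ F w ∧ F w ≤ x + L).card : ℝ) ≤ μ * (W i).card)
    (c : ι → Fin r → ℤ) (hc : ∀ q ∈ I, c q ≠ 0) (y : ι → ℝ) (P : (Fin r → α) → Prop) [DecidablePred P]
    (hP : ∀ w, P w → ∃ q ∈ I, |∑ i, (c q i : ℝ) * F (w i) - y q| ≤ L / 2) :
    (((Fintype.piFinset W).filter P).card : ℝ) ≤ I.card * (μ * ∏ i, ((W i).card : ℝ)) := by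
  classical
  have hsub : (Fintype.piFinset W).filter P ⊆
      I.biUnion fun q => (Fintype.piFinset W).filter fun w => |∑ i, (c q i : ℝ) * F (w i) - y q| ≤ L / 2 := by
    intro w hw
    rw [mem_filter] at hw
    obtain ⟨q, hq, h⟩ := hP w hw.2
    rw [mem_biUnion]
    exact ⟨q, hq, mem_filter.2 ⟨hw.1, h⟩⟩
  calc (((Fintype.piFinset W).filter P).card : ℝ)
      ≤ ((I.biUnion fun q => (Fintype.piFinset W).filter
          fun w => |∑ i, (c q i : ℝ) * F (w i) - y q| ≤ L / 2).card : ℝ) := by exact_mod_cast card_le_card hsub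
    _ ≤ ((∑ q ∈ I, ((Fintype.piFinset W).filter
          fun w => |∑ i, (c q i : ℝ) * F (w i) - y q| ≤ L / 2).card : ℕ) : ℝ) := by exact_mod_cast card_biUnion_le
    _ = ∑ q ∈ I, (((Fintype.piFinset W).filter
          fun w => |∑ i, (c q i : ℝ) * F (w i) - y q| ≤ L / 2).card : ℝ) := by push_cast; rfl
    _ ≤ ∑ _q ∈ I, μ * ∏ i, ((W i).card : ℝ) := sum_le_sum fun q hq => one_form W F μ L hm (c q) (hc q hq) (y q)
    _ = _ := by rw [sum_const, nsmul_eq_mul]

end count

/-- the sum of separated values -/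
lemma dom_sum {ι : Type*} [DecidableEq ι] (v : ι → ℝ) (R : ℝ) (hR : 1 < R) (S : Finset ι) :
    (∀ i ∈ S, 0 < v i) → (∀ i ∈ S, ∀ j ∈ S, i ≠ j → R * v i ≤ v j ∨ R * v j ≤ v i) →
    ∀ b : ℝ, 0 ≤ b → (∀ i ∈ S, v i ≤ b) → ∑ i ∈ S, v i ≤ b * (R / (R - 1)) := by
  have hR1 : 0 < R - 1 := by linarith
  induction S using Finset.induction_on_max_value v with
  | empty =>
    intro _ _ b hb _
    rw [sum_empty]
    positivity
  | insert a s has hmax ih =>
    intro hpos hsep b _ hb
    have hva : 0 < v a := hpos a (mem_insert_self a s)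
    have h1 : ∀ x ∈ s, v x ≤ v a / R := by
      intro x hx
      rw [le_div_iff₀ (by linarith), mul_comm]
      rcases hsep x (mem_insert_of_mem hx) a (mem_insert_self a s) (fun h => has (h ▸ hx)) with h | h
      · exact h
      · exfalso
        have h2 := hmax x hx
        nlinarith
    have h2 := ih (fun i hi => hpos i (mem_insert_of_mem hi))
      (fun i hi j hj => hsep i (mem_insert_of_mem hi) j (mem_insert_of_mem hj)) (v a / R) (by positivity) h1
    rw [sum_insert has]
    have h3 : v a / R * (R / (R - 1)) = v a / (R - 1) := by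
      field_simp
    rw [h3] at h2
    have h4 : v a + v a / (R - 1) = v a * (R / (R - 1)) := by
      field_simp
      ring
    have h5 := hb a (mem_insert_self a s)
    have h6 : v a * (R / (R - 1)) ≤ b * (R / (R - 1)) := mul_le_mul_of_nonneg_right h5 (by positivity)
    linarith

/-- **domination**: a combination of separated values with integer coefficients of absolute value at most `H` -/
lemma dom {ι : Type*} [DecidableEq ι] (S : Finset ι) (v : ι → ℝ) (H : ℝ) (hH : 1 ≤ H) (hv : ∀ i ∈ S, 0 < v i)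
    (hsep : ∀ i ∈ S, ∀ j ∈ S, i ≠ j → 4 * H * v i ≤ v j ∨ 4 * H * v j ≤ v i) (c : ι → ℝ)
    (hc1 : ∀ i ∈ S, |c i| ≤ H) (hc2 : ∀ i ∈ S, c i ≠ 0 → 1 ≤ |c i|) :
    ∀ i ∈ S, c i ≠ 0 → v i / 2 ≤ |∑ j ∈ S, c j * v j| := by
  intro i hi hci
  set S' := S.filter fun j => c j ≠ 0 with hS'
  obtain ⟨a, ha, hmax⟩ := S'.exists_max_image v ⟨i, mem_filter.2 ⟨hi, hci⟩⟩
  have haS : a ∈ S := (mem_filter.1 ha).1
  have hva := hv a haS
  have h1 : ∑ j ∈ S, c j * v j = ∑ j ∈ S', c j * v j := by
    rw [hS', sum_filter]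
    refine sum_congr rfl fun j _ => ?_
    split_ifs with h
    · rfl
    · push Not at h
      rw [h, zero_mul]
  have h2 : ∑ j ∈ S', c j * v j = c a * v a + ∑ j ∈ S'.erase a, c j * v j := (add_sum_erase S' _ ha).symm
  have h3 : |∑ j ∈ S'.erase a, c j * v j| ≤ H * ∑ j ∈ S'.erase a, v j := by
    rw [mul_sum]
    refine (abs_sum_le_sum_abs _ _).trans (sum_le_sum fun j hj => ?_)
    have hjS : j ∈ S := (mem_filter.1 (mem_of_mem_erase hj)).1
    rw [abs_mul, abs_of_pos (hv j hjS)]
    exact mul_le_mul_of_nonneg_right (hc1 j hjS) (hv j hjS).le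
  have h4 := dom_sum v (4 * H) (by linarith) (S'.erase a)
    (fun j hj => hv j (mem_filter.1 (mem_of_mem_erase hj)).1)
    (fun j hj j' hj' => hsep j (mem_filter.1 (mem_of_mem_erase hj)).1 j' (mem_filter.1 (mem_of_mem_erase hj')).1)
    (v a / (4 * H)) (by positivity) (fun j hj => by
      rw [le_div_iff₀ (by positivity), mul_comm]
      have hjS : j ∈ S := (mem_filter.1 (mem_of_mem_erase hj)).1
      rcases hsep j hjS a haS (ne_of_mem_erase hj) with h | h
      · exact h
      · exfalso
        have h5 := hmax j (mem_of_mem_erase hj)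
        nlinarith)
  have h5 : v a / (4 * H) * (4 * H / (4 * H - 1)) = v a / (4 * H - 1) := by
    have : (4 * H - 1) ≠ 0 := by linarith
    field_simp
  rw [h5] at h4
  have h6 : H * (v a / (4 * H - 1)) ≤ v a / 3 := by
    rw [mul_div_assoc', div_le_div_iff₀ (by linarith) (by norm_num)]
    nlinarith
  have h7 : H * ∑ j ∈ S'.erase a, v j ≤ H * (v a / (4 * H - 1)) := mul_le_mul_of_nonneg_left h4 (by linarith)
  have h8 : v a ≤ |c a * v a| := by
    rw [abs_mul, abs_of_pos hva]
    have := mul_le_mul_of_nonneg_right (hc2 a haS (mem_filter.1 ha).2) hva.le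
    linarith
  have h9 : |c a * v a| ≤ |c a * v a + ∑ j ∈ S'.erase a, c j * v j| + |∑ j ∈ S'.erase a, c j * v j| := by
    have := abs_sub (c a * v a + ∑ j ∈ S'.erase a, c j * v j) (∑ j ∈ S'.erase a, c j * v j)
    rwa [add_sub_cancel_right] at this
  have h10 : v i ≤ v a := hmax i (mem_filter.2 ⟨hi, hci⟩)
  rw [h1, h2]
  linarith

/-- separation from the logarithms -/
lemma sep_log {a b R : ℝ} (ha : 0 < a) (hb : 0 < b) (hR : 0 < R) (h : Real.log R < |Real.log a - Real.log b|) :
    R * a ≤ b ∨ R * b ≤ a := by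
  rcases lt_abs.1 h with h1 | h1
  · right
    have h2 : Real.log (R * b) < Real.log a := by
      rw [Real.log_mul hR.ne' hb.ne']
      linarith
    exact ((Real.log_lt_log_iff (by positivity) ha).1 h2).le
  · left
    have h2 : Real.log (R * a) < Real.log b := by
      rw [Real.log_mul hR.ne' ha.ne']
      linarith
    exact ((Real.log_lt_log_iff (by positivity) hb).1 h2).le

end Pool.Agent.L5helper80.MZ
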