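import Mathlib
import Pool.Agent.L5helper80.MZ.Tup

/-!
# Relations between values whose logarithms are spread out
-/

set_option autoImplicit false

namespace Pool.Agent.L5helper80.MZ

open Finset

variable {α : Type*} [DecidableEq α]

/-- linear relations -/
theorem lin_rel {r : ℕ} (W : Fin r → Finset α) (Z : α → ℝ) (hpos : ∀ i, ∀ w ∈ W i, 0 < Z w) (H : ℕ) (hH : 1 ≤ H)
    (μ : ℝ) (hm : ∀ i, ∀ x : ℝ, (((W i).filter fun w => x ≤ Real.log (Z w) ∧
      Real.log (Z w) ≤ x + 2 * Real.log (4 * H)).card : ℝ) ≤ μ * (W i).card) (θ : ℝ)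
    (P : (Fin r → α) → Prop) [DecidablePred P]
    (hP : ∀ w, (∀ i, w i ∈ W i) → P w → ∃ (c : Fin r → ℤ) (e : ℤ), (∀ i, |c i| ≤ H) ∧ |e| ≤ H ∧ ∃ i, c i ≠ 0 ∧
      |∑ j, (c j : ℝ) * Z (w j) - e * θ| < Z (w i) / 2) :
    (((Fintype.piFinset W).filter P).card : ℝ) ≤ (r : ℝ) ^ 2 * (μ * ∏ i, ((W i).card : ℝ)) := by
  classical
  have hH' : (1 : ℝ) ≤ H := by exact_mod_cast hH
  have hlog : 0 ≤ Real.log (4 * H) := Real.log_nonneg (by linarith)
  have hfil : (Fintype.piFinset W).filter P = (Fintype.piFinset W).filter fun w => (∀ i, w i ∈ W i) ∧ P w := by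
    refine filter_congr fun w hw => ?_
    rw [Fintype.mem_piFinset] at hw
    exact ⟨fun h => ⟨hw, h⟩, fun h => h.2⟩
  rw [hfil]
  have key := many_forms (univ : Finset (Fin r × Fin r)) W (fun w => Real.log (Z w)) μ (2 * Real.log (4 * H))
    hm (fun q => if q.1 = q.2 then Pi.single q.1 1 else Pi.single q.1 1 - Pi.single q.2 1) (by
      intro q _ h
      have h1 := congrFun h q.1
      split_ifs at h1 with h2
      · simp at h1
      · rw [Pi.sub_apply, Pi.single_eq_same, Pi.single_eq_of_ne h2] at h1
        simp at h1) (fun q => if q.1 = q.2 then Real.log |θ| else 0)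
    (fun w => (∀ i, w i ∈ W i) ∧ P w) (by
      rintro w ⟨hw, hPw⟩
      by_contra hcon
      push Not at hcon
      -- the tuple is separated
      have hs1 : ∀ i, Real.log (4 * H) < |Real.log (Z (w i)) - (Real.log |θ|)| := by
        intro i
        have h1 := hcon (i, i) (mem_univ _)
        simp only [if_true] at h1
        have h2 : ∑ j, (((Pi.single i 1 : Fin r → ℤ) j : ℤ) : ℝ) * Real.log (Z (w j)) = Real.log (Z (w i)) := by
          rw [Finset.sum_eq_single i]
          · simp
          · intro j _ hj
            rw [Pi.single_eq_of_ne hj]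
            simp
          · intro h; exact absurd (mem_univ _) h
        rw [h2] at h1
        linarith
      have hs2 : ∀ i j, i ≠ j → Real.log (4 * H) < |Real.log (Z (w i)) - Real.log (Z (w j))| := by
        intro i j hij
        have h1 := hcon (i, j) (mem_univ _)
        simp only [if_neg hij] at h1
        have h2 : ∑ l, (((Pi.single i 1 - Pi.single j 1 : Fin r → ℤ) l : ℤ) : ℝ) * Real.log (Z (w l)) =
            Real.log (Z (w i)) - Real.log (Z (w j)) := by
          have h3 : ∀ l, (((Pi.single i 1 - Pi.single j 1 : Fin r → ℤ) l : ℤ) : ℝ) * Real.log (Z (w l)) =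
              (if l = i then Real.log (Z (w i)) else 0) - (if l = j then Real.log (Z (w j)) else 0) := by
            intro l
            rw [Pi.sub_apply]
            rcases eq_or_ne l i with rfl | h4
            · rw [Pi.single_eq_same, Pi.single_eq_of_ne hij, if_pos rfl, if_neg hij]
              simp
            · rcases eq_or_ne l j with rfl | h5
              · rw [Pi.single_eq_same, Pi.single_eq_of_ne h4, if_neg h4, if_pos rfl]
                simp
              · rw [Pi.single_eq_of_ne h4, Pi.single_eq_of_ne h5, if_neg h4, if_neg h5]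
                simp
          rw [Finset.sum_congr rfl fun l _ => h3 l, Finset.sum_sub_distrib, Finset.sum_ite_eq' univ i,
            Finset.sum_ite_eq' univ j, if_pos (mem_univ _), if_pos (mem_univ _)]
        rw [h2, sub_zero] at h1
        linarith
      obtain ⟨c, e, hc, he, i, hi, hlt⟩ := hP w hw hPw
      have h4H : (0 : ℝ) < 4 * H := by linarith
      rcases eq_or_ne θ 0 with h0 | h0
      · have h1 := dom (univ : Finset (Fin r)) (fun j => Z (w j)) H hH' (fun j _ => hpos j (w j) (hw j))
          (fun j _ l _ hjl => sep_log (hpos j _ (hw j)) (hpos l _ (hw l)) h4H (hs2 j l hjl)) (fun j => (c j : ℝ))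
          (fun j _ => by exact_mod_cast hc j) (fun j _ h => by
            have : c j ≠ 0 := fun h' => h (by simp [h'])
            exact_mod_cast Int.one_le_abs this) i (mem_univ i) (by exact_mod_cast hi)
        simp only [h0, mul_zero, sub_zero] at hlt
        linarith
      · have hθ : 0 < |θ| := abs_pos.2 h0
        have h1 := dom (univ : Finset (Option (Fin r))) (fun o => o.elim |θ| fun j => Z (w j)) H hH' (by
            rintro (_ | j) _
            · exact hθ
            · exact hpos j (w j) (hw j)) (by
            rintro (_ | j) _ (_ | l) _ hjl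
            · exact absurd rfl hjl
            · refine sep_log hθ (hpos l _ (hw l)) h4H ?_
              rw [abs_sub_comm]
              exact hs1 l
            · exact sep_log (hpos j _ (hw j)) hθ h4H (hs1 j)
            · exact sep_log (hpos j _ (hw j)) (hpos l _ (hw l)) h4H (hs2 j l fun h => hjl (by rw [h])))
          (fun o => o.elim (-(e : ℝ) * (θ / |θ|)) fun j => (c j : ℝ)) (by
            rintro (_ | j) _
            · simp only [Option.elim]
              rw [abs_mul, abs_neg, abs_div, abs_abs, div_self hθ.ne', mul_one]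
              exact_mod_cast he
            · simp only [Option.elim]
              exact_mod_cast hc j) (by
            rintro (_ | j) _ h
            · simp only [Option.elim] at h ⊢
              rw [abs_mul, abs_neg, abs_div, abs_abs, div_self hθ.ne', mul_one]
              have : e ≠ 0 := fun h' => h (by simp [h'])
              exact_mod_cast Int.one_le_abs this
            · simp only [Option.elim] at h ⊢
              have : c j ≠ 0 := fun h' => h (by simp [h'])
              exact_mod_cast Int.one_le_abs this) (some i) (mem_univ _) (by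
            simp only [Option.elim]
            exact_mod_cast hi)
        rw [Fintype.sum_option] at h1
        simp only [Option.elim] at h1
        have h2 : -(e : ℝ) * (θ / |θ|) * |θ| + ∑ j, (c j : ℝ) * Z (w j) = ∑ j, (c j : ℝ) * Z (w j) - e * θ := by
          field_simp
          ring
        rw [h2] at h1
        linarith)
  refine key.trans (le_of_eq ?_)
  rw [card_univ, Fintype.card_prod, Fintype.card_fin]
  push_cast
  ring

/-- polynomial relations -/
theorem poly_rel {r : ℕ} (W : Fin r → Finset α) (Z : α → ℝ) (hpos : ∀ i, ∀ w ∈ W i, 0 < Z w) (D H : ℕ) (hH : 1 ≤ H)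
    (μ : ℝ) (hμ : 0 ≤ μ) (hm : ∀ i, ∀ x : ℝ, (((W i).filter fun w => x ≤ Real.log (Z w) ∧
      Real.log (Z w) ≤ x + 2 * Real.log (4 * H)).card : ℝ) ≤ μ * (W i).card)
    (P : (Fin r → α) → Prop) [DecidablePred P]
    (hP : ∀ w, (∀ i, w i ∈ W i) → P w → ∃ Q : MvPolynomial (Fin r) ℤ, (∀ i, Q.degreeOf i ≤ D) ∧ (∀ m, |Q.coeff m| ≤ H) ∧
      ∃ m ∈ Q.support, |MvPolynomial.aeval (fun i => Z (w i)) Q| < (∏ i, Z (w i) ^ m i) / 2) :
    (((Fintype.piFinset W).filter P).card : ℝ) ≤ (2 * D + 1) ^ r * (μ * ∏ i, ((W i).card : ℝ)) := by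
  classical
  have hH' : (1 : ℝ) ≤ H := by exact_mod_cast hH
  have hlog : 0 ≤ Real.log (4 * H) := Real.log_nonneg (by linarith)
  have hfil : (Fintype.piFinset W).filter P = (Fintype.piFinset W).filter fun w => (∀ i, w i ∈ W i) ∧ P w := by
    refine filter_congr fun w hw => ?_
    rw [Fintype.mem_piFinset] at hw
    exact ⟨fun h => ⟨hw, h⟩, fun h => h.2⟩
  rw [hfil]
  set I : Finset (Fin r → ℤ) := (Fintype.piFinset fun _ => Icc (-(D : ℤ)) D).filter fun c => c ≠ 0 with hI
  have hcard : I.card ≤ (2 * D + 1) ^ r := by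
    refine (card_filter_le _ _).trans (le_of_eq ?_)
    rw [Fintype.card_piFinset, prod_const, card_univ, Fintype.card_fin, Int.card_Icc]
    congr 1
    omega
  have key := many_forms I W (fun w => Real.log (Z w)) μ (2 * Real.log (4 * H))
    hm (fun q => q) (fun q hq => (mem_filter.1 hq).2) (fun _ => 0)
    (fun w => (∀ i, w i ∈ W i) ∧ P w) (by
      rintro w ⟨hw, hPw⟩
      by_contra hcon
      push Not at hcon
      obtain ⟨Q, hdeg, hco, m, hmQ, hlt⟩ := hP w hw hPw
      have h4H : (0 : ℝ) < 4 * H := by linarith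
      have hZ : ∀ i, 0 < Z (w i) := fun i => hpos i _ (hw i)
      have hlogm : ∀ m : Fin r →₀ ℕ, Real.log (∏ i, Z (w i) ^ m i) = ∑ i, (m i : ℝ) * Real.log (Z (w i)) := by
        intro m
        rw [Real.log_prod (fun i _ => (pow_pos (hZ i) _).ne')]
        exact sum_congr rfl fun i _ => Real.log_pow _ _
      have h1 := dom Q.support (fun m => ∏ i, Z (w i) ^ m i) H hH'
        (fun m _ => Finset.prod_pos fun i _ => pow_pos (hZ i) _) (by
          intro m hm m' hm' hne
          refine sep_log (Finset.prod_pos fun i _ => pow_pos (hZ i) _) (Finset.prod_pos fun i _ => pow_pos (hZ i) _) h4H ?_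
          rw [hlogm, hlogm, ← sum_sub_distrib]
          have h2 := hcon (fun i => (m i : ℤ) - m' i) (by
            rw [hI, mem_filter, Fintype.mem_piFinset]
            refine ⟨fun i => ?_, fun h => hne ?_⟩
            · have h3 := MvPolynomial.monomial_le_degreeOf i hm
              have h4 := MvPolynomial.monomial_le_degreeOf i hm'
              have h5 := hdeg i
              rw [mem_Icc]
              constructor <;> omega
            · ext i
              have := congrFun h i
              simp only [Pi.zero_apply] at this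
              omega)
          have h3 : ∑ i, (((m i : ℤ) - m' i : ℤ) : ℝ) * Real.log (Z (w i)) - 0 =
              ∑ i, ((m i : ℝ) * Real.log (Z (w i)) - (m' i : ℝ) * Real.log (Z (w i))) := by
            rw [sub_zero]
            refine sum_congr rfl fun i _ => ?_
            push_cast
            ring
          rw [h3] at h2
          linarith) (fun m => ((Q.coeff m : ℤ) : ℝ)) (fun m _ => by exact_mod_cast hco m) (fun m _ h => by
            have h5 : Q.coeff m ≠ 0 := Int.cast_ne_zero.1 h
            exact_mod_cast Int.one_le_abs h5) m hmQ (by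
            rw [MvPolynomial.mem_support_iff] at hmQ
            exact_mod_cast hmQ)
      have h2 : MvPolynomial.aeval (fun i => Z (w i)) Q =
          ∑ m ∈ Q.support, ((Q.coeff m : ℤ) : ℝ) * ∏ i, Z (w i) ^ m i := by
        rw [MvPolynomial.aeval_def, MvPolynomial.eval₂_eq']
        rfl
      rw [h2] at hlt
      linarith)
  refine key.trans (mul_le_mul_of_nonneg_right ?_ (mul_nonneg hμ (Finset.prod_nonneg fun i _ => Nat.cast_nonneg _)))
  have h1 : ((I.card : ℕ) : ℝ) ≤ (((2 * D + 1) ^ r : ℕ) : ℝ) := Nat.cast_le.2 hcard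
  refine h1.trans (le_of_eq ?_)
  push_cast
  ring

/-- dense families contain large subfamilies without relations -/
theorem dense_rel (W0 Fm : Finset α) (hF : Fm ⊆ W0) (Z : α → ℝ) (hpos : ∀ w ∈ W0, 0 < Z w) (H : ℕ) (hH : 1 ≤ H)
    (μ : ℝ) (hm : ∀ x : ℝ, ((W0.filter fun w => x ≤ Real.log (Z w) ∧
      Real.log (Z w) ≤ x + 2 * Real.log (4 * H)).card : ℝ) ≤ μ * W0.card) :
    ∃ G ⊆ Fm, (Fm.card : ℝ) ≤ G.card * (μ * W0.card) ∧ ∀ c : α → ℤ, (∀ w ∈ G, |c w| ≤ H) → ∀ w ∈ G, c w ≠ 0 →
      Z w / 2 ≤ |∑ v ∈ G, (c v : ℝ) * Z v| := by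
  classical
  have hH' : (1 : ℝ) ≤ H := by exact_mod_cast hH
  have h4H : (0 : ℝ) < 4 * H := by linarith
  have hlog : 0 ≤ Real.log (4 * H) := Real.log_nonneg (by linarith)
  set Sp : Finset α → Prop := fun G => ∀ a ∈ G, ∀ b ∈ G, a ≠ b → Real.log (4 * H) < |Real.log (Z a) - Real.log (Z b)|
    with hSp
  obtain ⟨G, hG, hmax⟩ := (Fm.powerset.filter Sp).exists_max_image card ⟨∅, by
    rw [mem_filter, mem_powerset]
    exact ⟨empty_subset _, fun a ha => absurd ha (notMem_empty a)⟩⟩
  rw [mem_filter, mem_powerset] at hG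
  obtain ⟨hGF, hGs⟩ := hG
  refine ⟨G, hGF, ?_, ?_⟩
  · have hsub : Fm ⊆ G.biUnion fun g => W0.filter fun w => Real.log (Z g) - Real.log (4 * H) ≤ Real.log (Z w) ∧
        Real.log (Z w) ≤ Real.log (Z g) - Real.log (4 * H) + 2 * Real.log (4 * H) := by
      intro w hw
      rw [mem_biUnion]
      by_cases hwG : w ∈ G
      · exact ⟨w, hwG, mem_filter.2 ⟨hF hw, by linarith, by linarith⟩⟩
      · by_contra hcon
        push Not at hcon
        have h1 : Sp (insert w G) := by
          have h2 : ∀ g ∈ G, Real.log (4 * H) < |Real.log (Z w) - Real.log (Z g)| := by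
            intro g hg
            by_contra h3
            push Not at h3
            rw [abs_le] at h3
            exact hcon g hg (mem_filter.2 ⟨hF hw, by linarith [h3.1], by linarith [h3.2]⟩)
          intro a ha b hb hab
          rw [mem_insert] at ha hb
          rcases ha with rfl | ha
          · rcases hb with rfl | hb
            · exact absurd rfl hab
            · exact h2 b hb
          · rcases hb with rfl | hb
            · rw [abs_sub_comm]
              exact h2 a ha
            · exact hGs a ha b hb hab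
        have h4 := hmax (insert w G) (mem_filter.2 ⟨mem_powerset.2 (insert_subset hw hGF), h1⟩)
        rw [card_insert_of_notMem hwG] at h4
        omega
    calc (Fm.card : ℝ) ≤ ((G.biUnion fun g => W0.filter fun w => Real.log (Z g) - Real.log (4 * H) ≤ Real.log (Z w) ∧
        Real.log (Z w) ≤ Real.log (Z g) - Real.log (4 * H) + 2 * Real.log (4 * H)).card : ℝ) := by
          exact_mod_cast card_le_card hsub
      _ ≤ ((∑ g ∈ G, (W0.filter fun w => Real.log (Z g) - Real.log (4 * H) ≤ Real.log (Z w) ∧
        Real.log (Z w) ≤ Real.log (Z g) - Real.log (4 * H) + 2 * Real.log (4 * H)).card : ℕ) : ℝ) := by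
          exact_mod_cast card_biUnion_le
      _ = ∑ g ∈ G, ((W0.filter fun w => Real.log (Z g) - Real.log (4 * H) ≤ Real.log (Z w) ∧
        Real.log (Z w) ≤ Real.log (Z g) - Real.log (4 * H) + 2 * Real.log (4 * H)).card : ℝ) := by push_cast; rfl
      _ ≤ ∑ _g ∈ G, μ * (W0.card : ℝ) := sum_le_sum fun g _ => hm _
      _ = _ := by rw [sum_const, nsmul_eq_mul]
  · intro c hc w hw hcw
    exact dom G Z H hH' (fun a ha => hpos a (hF (hGF ha)))
      (fun a ha b hb hab => sep_log (hpos a (hF (hGF ha))) (hpos b (hF (hGF hb))) h4H (hGs a ha b hb hab))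
      (fun v => (c v : ℝ)) (fun a ha => by exact_mod_cast hc a ha) (fun a _ h => by
        have : c a ≠ 0 := fun h' => h (by simp [h'])
        exact_mod_cast Int.one_le_abs this) w hw (by exact_mod_cast hcw)

end Pool.Agent.L5helper80.MZ
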