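import Mathlib
import Pool.Agent.L5helper80.MZ.Rel

/-!
# Polynomial relations with given monomials
-/

set_option autoImplicit false

namespace Pool.Agent.L5helper80.MZ

open Finset

variable {α : Type*} [DecidableEq α]

/-- polynomial relations with monomials in a finite set -/
theorem poly_relS {r : ℕ} (W : Fin r → Finset α) (Z : α → ℝ) (hpos : ∀ i, ∀ w ∈ W i, 0 < Z w) (S : Finset (Fin r →₀ ℕ))
    (H : ℕ) (hH : 1 ≤ H) (μ : ℝ) (hμ : 0 ≤ μ) (hm : ∀ i, ∀ x : ℝ, (((W i).filter fun w => x ≤ Real.log (Z w) ∧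
      Real.log (Z w) ≤ x + 2 * Real.log (4 * H)).card : ℝ) ≤ μ * (W i).card)
    (P : (Fin r → α) → Prop) [DecidablePred P]
    (hP : ∀ w, (∀ i, w i ∈ W i) → P w → ∃ Q : MvPolynomial (Fin r) ℤ, Q.support ⊆ S ∧ (∀ m, |Q.coeff m| ≤ H) ∧
      ∃ m ∈ Q.support, |MvPolynomial.aeval (fun i => Z (w i)) Q| < (∏ i, Z (w i) ^ m i) / 2) :
    (((Fintype.piFinset W).filter P).card : ℝ) ≤ (S.card : ℝ) ^ 2 * (μ * ∏ i, ((W i).card : ℝ)) := by
  classical
  have hH' : (1 : ℝ) ≤ H := by exact_mod_cast hH
  have hfil : (Fintype.piFinset W).filter P = (Fintype.piFinset W).filter fun w => (∀ i, w i ∈ W i) ∧ P w := by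
    refine filter_congr fun w hw => ?_
    rw [Fintype.mem_piFinset] at hw
    exact ⟨fun h => ⟨hw, h⟩, fun h => h.2⟩
  rw [hfil]
  have key := many_forms S.offDiag W (fun w => Real.log (Z w)) μ (2 * Real.log (4 * H))
    hm (fun q i => (q.1 i : ℤ) - q.2 i) (fun q hq h => by
      rw [mem_offDiag] at hq
      refine hq.2.2 ?_
      ext i
      have := congrFun h i
      simp only [Pi.zero_apply] at this
      omega) (fun _ => 0)
    (fun w => (∀ i, w i ∈ W i) ∧ P w) (by
      rintro w ⟨hw, hPw⟩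
      by_contra hcon
      push Not at hcon
      obtain ⟨Q, hsup, hco, m, hmQ, hlt⟩ := hP w hw hPw
      have h4H : (0 : ℝ) < 4 * H := by linarith
      have hZ : ∀ i, 0 < Z (w i) := fun i => hpos i _ (hw i)
      have hlogm : ∀ m : Fin r →₀ ℕ, Real.log (∏ i, Z (w i) ^ m i) = ∑ i, (m i : ℝ) * Real.log (Z (w i)) := by
        intro m
        rw [Real.log_prod (fun i _ => (pow_pos (hZ i) _).ne')]
        exact sum_congr rfl fun i _ => Real.log_pow _ _
      have h1 := dom Q.support (fun m => ∏ i, Z (w i) ^ m i) H hH'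
        (fun m _ => Finset.prod_pos fun i _ => pow_pos (hZ i) _) (by
          intro m hm m' hm' hne
          refine sep_log (Finset.prod_pos fun i _ => pow_pos (hZ i) _) (Finset.prod_pos fun i _ => pow_pos (hZ i) _) h4H ?_
          rw [hlogm, hlogm, ← sum_sub_distrib]
          have h2 := hcon (m, m') (by
            rw [mem_offDiag]
            exact ⟨hsup hm, hsup hm', hne⟩)
          have h3 : ∑ i, ((((m, m').1 i : ℤ) - (m, m').2 i : ℤ) : ℝ) * Real.log (Z (w i)) - 0 =
              ∑ i, ((m i : ℝ) * Real.log (Z (w i)) - (m' i : ℝ) * Real.log (Z (w i))) := by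
            rw [sub_zero]
            refine sum_congr rfl fun i _ => ?_
            push_cast
            ring
          rw [h3] at h2
          linarith) (fun m => ((Q.coeff m : ℤ) : ℝ)) (fun m _ => by exact_mod_cast hco m) (fun m _ h => by
            have h5 : Q.coeff m ≠ 0 := Int.cast_ne_zero.1 h
            exact_mod_cast Int.one_le_abs h5) m hmQ (by
            rw [MvPolynomial.mem_support_iff] at hmQ
            exact_mod_cast hmQ)
      have h2 : MvPolynomial.aeval (fun i => Z (w i)) Q =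
          ∑ m ∈ Q.support, ((Q.coeff m : ℤ) : ℝ) * ∏ i, Z (w i) ^ m i := by
        rw [MvPolynomial.aeval_def, MvPolynomial.eval₂_eq']
        rfl
      rw [h2] at hlt
      linarith)
  refine key.trans (mul_le_mul_of_nonneg_right ?_ (mul_nonneg hμ (Finset.prod_nonneg fun i _ => Nat.cast_nonneg _)))
  have h1 : S.offDiag.card ≤ S.card ^ 2 := by
    rw [offDiag_card, sq]
    exact Nat.sub_le _ _
  exact_mod_cast h1

end Pool.Agent.L5helper80.MZ
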